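import Pool.Agent.Helper51.BP.Basic

/-!
# MP_175197_nt, project BR: sets of integers such that every prime `> K` divides at most `K` of those
members which are not of the form `s * m`, `s ≤ K`, `m` a prime power, and the parts composed of
primes `≤ K` of these members divide `K!`

`FR` (all members `> y`, from project BP), `fR` (the members with a prime factor `> y` and without
prime factor in `(K, y]`), `gR` (the others).
-/

set_option autoImplicit false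

namespace Pool.Agent.Helper51.BR

open Finset
open Pool.Agent.Helper9.PF
open Pool.Agent.Helper51.BP (Th FR aR)

/-- a small multiple of a prime power -/
def Sp (K n : ℕ) : Prop := ∃ s m, s ≤ K ∧ IsPrimePow m ∧ n = s * m

/-- the sets of the project -/
structure Good (A : Set ℕ) (K : ℕ) : Prop where
  two : 2 ≤ K
  pos : ∀ n ∈ A, 0 < n
  mult : ∀ p : ℕ, p.Prime → K < p → ∀ S : Finset ℕ,
    (∀ n ∈ S, n ∈ A ∧ p ∣ n ∧ ¬ Sp K n) → S.card ≤ K
  split : ∀ n ∈ A, ¬ Sp K n →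
    ∃ s m, n = s * m ∧ s ∣ K.factorial ∧ ∀ p : ℕ, p.Prime → p ∣ m → K < p

/-- no prime factor in `(K, y]`, and a prime factor `> y` -/
def rough (K y n : ℕ) : Prop :=
  (∀ p : ℕ, p.Prime → p ∣ n → K < p → y < p) ∧ ∃ p : ℕ, p.Prime ∧ p ∣ n ∧ y < p

open Classical in
/-- the part of `FR` from the members without prime factor in `(K, y]` -/
noncomputable def fR (A : Set ℕ) (ε : ℕ → ℤ) (K y m : ℕ) : ℤ :=
  ∑ n ∈ m.divisors with (n ∈ A ∧ y < n ∧ Odd (m / n)) ∧ rough K y n, ε n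

open Classical in
/-- the rest -/
noncomputable def gR (A : Set ℕ) (ε : ℕ → ℤ) (K y m : ℕ) : ℤ :=
  ∑ n ∈ m.divisors with (n ∈ A ∧ y < n ∧ Odd (m / n)) ∧ ¬ rough K y n, ε n

theorem FR_eq (A : Set ℕ) (ε : ℕ → ℤ) (K y m : ℕ) :
    FR A ε y m = fR A ε K y m + gR A ε K y m := by
  classical
  unfold FR fR gR
  have h := Finset.sum_filter_add_sum_filter_not
    (m.divisors.filter fun n => n ∈ A ∧ y < n ∧ Odd (m / n)) (fun n => rough K y n) ε
  rw [filter_filter, filter_filter] at h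
  exact h.symm

theorem fR_mul (A : Set ℕ) (ε : ℕ → ℤ) (K y : ℕ) {d M : ℕ}
    (hd : ∀ p : ℕ, p.Prime → p ∣ d → K < p ∧ p ≤ y) (hd0 : Odd d) (hM : M ≠ 0) :
    fR A ε K y (d * M) = fR A ε K y M := by
  classical
  have hdp : 0 < d := hd0.pos
  have hco : ∀ n, rough K y n → Nat.Coprime n d := by
    intro n hn
    rw [Nat.coprime_iff_gcd_eq_one]
    by_contra h
    obtain ⟨p, hp, hpd⟩ := Nat.exists_prime_and_dvd h
    have h1 := hd p hp (hpd.trans (Nat.gcd_dvd_right _ _))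
    have h2 := hn.1 p hp (hpd.trans (Nat.gcd_dvd_left _ _)) h1.1
    omega
  have hodd : ∀ n, n ∣ M → (Odd (d * M / n) ↔ Odd (M / n)) := by
    intro n hn
    rw [Nat.mul_div_assoc d hn, Nat.odd_mul]
    exact ⟨fun h => h.2, fun h => ⟨hd0, h⟩⟩
  unfold fR
  congr 1
  ext n
  simp only [mem_filter, Nat.mem_divisors]
  constructor
  · rintro ⟨⟨h1, -⟩, ⟨h2, h3, h4⟩, h5⟩
    have h6 : n ∣ M := (hco n h5).dvd_of_dvd_mul_left h1
    exact ⟨⟨h6, hM⟩, ⟨h2, h3, (hodd n h6).1 h4⟩, h5⟩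
  · rintro ⟨⟨h1, -⟩, ⟨h2, h3, h4⟩, h5⟩
    exact ⟨⟨dvd_mul_of_dvd_right h1 d, mul_ne_zero hdp.ne' hM⟩, ⟨h2, h3, (hodd n h1).2 h4⟩, h5⟩

/-- a member `> K!`, not a prime power, has a prime factor `> K` -/
theorem big_prime {A : Set ℕ} {K : ℕ} (hA : Good A K) {y n : ℕ} (hy : K.factorial ≤ y)
    (hn : n ∈ A) (hnp : ¬ Sp K n) (hyn : y < n) : ∃ p : ℕ, p.Prime ∧ p ∣ n ∧ K < p := by
  obtain ⟨s, m, h1, h2, h3⟩ := hA.split n hn hnp
  have h4 : s ≤ K.factorial := Nat.le_of_dvd (Nat.factorial_pos _) h2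
  have h5 : m ≠ 1 := by
    rintro rfl
    omega
  obtain ⟨p, hp, hpm⟩ := Nat.exists_prime_and_dvd h5
  exact ⟨p, hp, h1 ▸ dvd_mul_of_dvd_right hpm s, h3 p hp hpm⟩

/-- the number of the prime powers dividing `m` -/
theorem card_pow_le (m : ℕ) (hm : m ≠ 0) (S : Finset ℕ) (hS : ∀ n ∈ S, IsPrimePow n ∧ n ∣ m) :
    S.card ≤ Nat.log 2 m := by
  classical
  have h1 : S ⊆ m.primeFactors.biUnion fun p =>
      (Icc 1 (m.factorization p)).image fun j => p ^ j := by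
    intro n hn
    obtain ⟨h2, h3⟩ := hS n hn
    obtain ⟨p, k, hp, hk, rfl⟩ := (isPrimePow_nat_iff n).1 h2
    rw [mem_biUnion]
    have h4 : p ∣ m := (dvd_pow_self p hk.ne').trans h3
    refine ⟨p, Nat.mem_primeFactors.2 ⟨hp, h4, hm⟩, mem_image.2 ⟨k, mem_Icc.2 ⟨hk, ?_⟩, rfl⟩⟩
    exact (hp.pow_dvd_iff_le_factorization hm).1 h3
  have h2 : S.card ≤ ∑ p ∈ m.primeFactors, m.factorization p := by
    refine (card_le_card h1).trans (card_biUnion_le.trans (sum_le_sum fun p _ => ?_))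
    refine card_image_le.trans ?_
    rw [Nat.card_Icc]
    omega
  refine h2.trans ?_
  refine Nat.le_log_of_pow_le (by norm_num) ?_
  calc 2 ^ (∑ p ∈ m.primeFactors, m.factorization p)
      = ∏ p ∈ m.primeFactors, 2 ^ m.factorization p := by rw [Finset.prod_pow_eq_pow_sum]
    _ ≤ ∏ p ∈ m.primeFactors, p ^ m.factorization p :=
        prod_le_prod (fun _ _ => by positivity)
        (fun p hp => Nat.pow_le_pow_left (Nat.prime_of_mem_primeFactors hp).two_le _)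
    _ = m := Nat.prod_factorization_pow_eq_self hm

/-- the number of the small multiples of prime powers dividing `m` -/
theorem card_sp_le (K m : ℕ) (hm : m ≠ 0) (S : Finset ℕ) (hS : ∀ n ∈ S, Sp K n ∧ n ∣ m) :
    S.card ≤ K * Nat.log 2 m := by
  classical
  obtain ⟨PP, hPP⟩ : ∃ PP, PP = m.divisors.filter fun n => IsPrimePow n := ⟨_, rfl⟩
  have h1 : PP.card ≤ Nat.log 2 m := by
    refine card_pow_le m hm _ fun n hn => ?_
    rw [hPP, mem_filter] at hn
    exact ⟨hn.2, Nat.dvd_of_mem_divisors hn.1⟩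
  have h2 : S ⊆ (Icc 1 K ×ˢ PP).image fun x => x.1 * x.2 := by
    intro n hn
    obtain ⟨⟨s, t, hs, ht, rfl⟩, hd⟩ := hS n hn
    have hs0 : s ≠ 0 := by
      rintro rfl
      rw [zero_mul, zero_dvd_iff] at hd
      exact hm hd
    rw [mem_image]
    refine ⟨(s, t), ?_, rfl⟩
    rw [mem_product, mem_Icc, hPP, mem_filter, Nat.mem_divisors]
    exact ⟨⟨by show 1 ≤ s; omega, hs⟩, ⟨(dvd_mul_left t s).trans hd, hm⟩, ht⟩
  refine (card_le_card h2).trans (card_image_le.trans ?_)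
  rw [card_product, Nat.card_Icc, Nat.add_sub_cancel]
  exact Nat.mul_le_mul_left K h1

open Classical in
/-- the number of the members of `A`, `> y`, dividing `m` -/
theorem card_le {A : Set ℕ} {K : ℕ} (hA : Good A K) {y : ℕ} (hy : K.factorial ≤ y) (m : ℕ)
    (S : Finset ℕ) (hS : ∀ n ∈ S, n ∈ A ∧ n ∣ m ∧ y < n) (hm : m ≠ 0) :
    S.card ≤ (2 * K) * Nat.log 2 m := by
  have h0 : (S.filter fun n => ¬ Sp K n).card ≤ K * Nat.log 2 m := by
    obtain ⟨T, hT⟩ : ∃ T, T = S.filter fun n => ¬ Sp K n := ⟨_, rfl⟩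
    rw [← hT]
    have hTS : ∀ n ∈ T, n ∈ A ∧ n ∣ m ∧ y < n ∧ ¬ Sp K n := by
      intro n hn
      rw [hT, mem_filter] at hn
      obtain ⟨h1, h2, h3⟩ := hS n hn.1
      exact ⟨h1, h2, h3, hn.2⟩
    have h1 : T ⊆ (m.primeFactors.filter fun p => K < p).biUnion
        fun p => T.filter fun n => p ∣ n := by
      intro n hn
      obtain ⟨h2, h3, h4, h5⟩ := hTS n hn
      rw [mem_biUnion]
      obtain ⟨p, hp, hpn, hpK⟩ := big_prime hA hy h2 h5 h4
      exact ⟨p, mem_filter.2 ⟨Nat.mem_primeFactors.2 ⟨hp, hpn.trans h3, hm⟩, hpK⟩,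
        mem_filter.2 ⟨hn, hpn⟩⟩
    have h2 : T.card ≤ ∑ p ∈ m.primeFactors.filter (fun p => K < p), K := by
      refine (card_le_card h1).trans (card_biUnion_le.trans (sum_le_sum fun p hp => ?_))
      rw [mem_filter] at hp
      refine hA.mult p (Nat.prime_of_mem_primeFactors hp.1) hp.2 _ fun n hn => ?_
      rw [mem_filter] at hn
      exact ⟨(hTS n hn.1).1, hn.2, (hTS n hn.1).2.2.2⟩
    rw [sum_const, smul_eq_mul, mul_comm] at h2
    refine h2.trans (Nat.mul_le_mul_left K ((card_filter_le _ _).trans ?_))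
    refine Nat.le_log_of_pow_le (by norm_num) ?_
    calc 2 ^ m.primeFactors.card = ∏ p ∈ m.primeFactors, 2 := by rw [prod_const]
      _ ≤ ∏ p ∈ m.primeFactors, p := prod_le_prod (fun _ _ => by norm_num)
          (fun p hp => (Nat.prime_of_mem_primeFactors hp).two_le)
      _ ≤ m := Nat.le_of_dvd (Nat.pos_of_ne_zero hm) (Nat.prod_primeFactors_dvd m)
  have h1 : (S.filter fun n => Sp K n).card ≤ K * Nat.log 2 m := by
    refine card_sp_le K m hm _ fun n hn => ?_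
    rw [mem_filter] at hn
    exact ⟨hn.2, (hS n hn.1).2.1⟩
  have h2 := Finset.card_filter_add_card_filter_not (s := S) (fun n => Sp K n)
  have h3 : (2 * K) * Nat.log 2 m = K * Nat.log 2 m + K * Nat.log 2 m := by ring
  omega

theorem abs_FR_le {A : Set ℕ} {K : ℕ} (hA : Good A K) (ε : ℕ → ℤ) (hε : ∀ p, |ε p| ≤ 1) {y : ℕ}
    (hy : K.factorial ≤ y) (m : ℕ) : |FR A ε y m| ≤ (((2 * K) * Nat.log 2 m : ℕ) : ℤ) := by
  classical
  unfold FR
  refine (abs_sum_le_sum_abs _ _).trans ?_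
  refine (sum_le_sum (fun p _ => hε p)).trans ?_
  rw [sum_const, nsmul_eq_mul, mul_one]
  norm_cast
  rcases Nat.eq_zero_or_pos m with rfl | hm
  · simp
  · refine card_le hA hy m _ (fun n hn => ?_) hm.ne'
    rw [mem_filter, Nat.mem_divisors] at hn
    exact ⟨hn.2.1, hn.1.1, hn.2.2.1⟩

theorem abs_aR_le {A : Set ℕ} {K : ℕ} (hA : Good A K) (ε θ : ℕ → ℤ) (hε : ∀ p, |ε p| ≤ 1)
    (hθ : Th θ) {y : ℕ} (hy : K.factorial ≤ y) (m : ℕ) :
    |aR A ε θ y m| ≤ (((2 * K) * Nat.log 2 m : ℕ) : ℤ) := by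
  unfold aR
  rw [abs_mul, hθ.one, one_mul]
  exact abs_FR_le hA ε hε hy m

/-- the crude bound for `bet` -/
theorem bet_crude {lam : ℝ} (hlam : 3 / 2 ≤ lam) {A : Set ℕ} {K : ℕ} (hA : Good A K)
    {ε θ : ℕ → ℤ} (hε : ∀ p, |ε p| ≤ 1) (hθ : Th θ) {y : ℕ} (hy : K.factorial ≤ y)
    {M X H : ℕ} (hM : 1 ≤ M) (hH : (Nat.log 2 M : ℝ) ≤ lam ^ H) (hX : M + H ≤ X) :
    bet lam (aR A ε θ y) M ≤ ((2 * K : ℕ) : ℝ) * (5 * (Nat.log 2 X : ℝ) + 20) := by
  obtain ⟨K', hK'⟩ : ∃ K', K' = 2 * K := ⟨_, rfl⟩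
  rw [← hK']
  have hlam0 : (0 : ℝ) < lam := by linarith
  have hr0 : 0 ≤ lam⁻¹ := by positivity
  obtain ⟨b, hb⟩ : ∃ b : ℕ → ℤ, ∀ t, b t = (Nat.log 2 t : ℤ) := ⟨_, fun _ => rfl⟩
  have h1 : bet lam b M ≤ 5 * (Nat.log 2 X : ℝ) + 20 := by
    refine bet_le lam hlam b (fun t => ?_) M H (Nat.log 2 X) hM hH fun t _ ht => ?_
    · rw [hb, abs_of_nonneg (Int.natCast_nonneg _)]
    · rw [hb, abs_of_nonneg (Int.natCast_nonneg _)]
      exact_mod_cast Nat.log_mono_right (by omega)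
  have h2 : ∀ t, |(aR A ε θ y t : ℝ)| ≤ K' * |(b t : ℝ)| := by
    intro t
    have h3 := abs_aR_le hA ε θ hε hθ hy t
    rw [← hK'] at h3
    have h4 : ((|aR A ε θ y t| : ℤ) : ℝ) ≤ (((K' * Nat.log 2 t : ℕ) : ℤ) : ℝ) := by exact_mod_cast h3
    rw [Int.cast_abs] at h4
    rw [hb]
    push_cast at h4 ⊢
    rw [abs_of_nonneg (by positivity : (0:ℝ) ≤ (Nat.log 2 t : ℝ))]
    exact h4
  -- summability of the majorant
  have hsb : Summable (fun h : ℕ => |(b (M + 1 + h) : ℝ)| * lam⁻¹ ^ (h + 1)) := by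
    have h3 : ‖lam⁻¹‖ < 1 := by
      rw [Real.norm_eq_abs, abs_of_nonneg hr0]
      rw [inv_lt_one₀ hlam0]
      linarith
    have h4 := (summable_pow_mul_geometric_of_norm_lt_one (R := ℝ) 1 h3)
    have h5 : Summable (fun n : ℕ => ((n + (M + 1) : ℕ) : ℝ) * lam⁻¹ ^ n) := by
      have h6 := h4.add ((summable_geometric_of_norm_lt_one h3).mul_left ((M : ℝ) + 1))
      refine h6.congr fun n => ?_
      push_cast
      ring
    refine Summable.of_nonneg_of_le (fun h => by positivity) (fun h => ?_) (h5.mul_left lam⁻¹)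
    rw [hb, pow_succ]
    have h7 : |((Nat.log 2 (M + 1 + h) : ℤ) : ℝ)| ≤ ((h + (M + 1) : ℕ) : ℝ) := by
      rw [abs_of_nonneg (by positivity)]
      have := Nat.log_le_self 2 (M + 1 + h)
      have h8 : Nat.log 2 (M + 1 + h) ≤ h + (M + 1) := by omega
      exact_mod_cast h8
    calc |((Nat.log 2 (M + 1 + h) : ℤ) : ℝ)| * (lam⁻¹ ^ h * lam⁻¹)
        ≤ ((h + (M + 1) : ℕ) : ℝ) * (lam⁻¹ ^ h * lam⁻¹) :=
          mul_le_mul_of_nonneg_right h7 (by positivity)
      _ = lam⁻¹ * (((h + (M + 1) : ℕ) : ℝ) * lam⁻¹ ^ h) := by ring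
  have h3 : bet lam (aR A ε θ y) M ≤ K' * bet lam b M := by
    unfold bet
    rw [mul_add]
    refine add_le_add ?_ ?_
    · rw [← tsum_mul_left]
      have h4 : ∀ h : ℕ, |(aR A ε θ y (M + 1 + h) : ℝ)| * lam⁻¹ ^ (h + 1) ≤
          (K' : ℝ) * (|(b (M + 1 + h) : ℝ)| * lam⁻¹ ^ (h + 1)) := by
        intro h
        rw [← mul_assoc]
        exact mul_le_mul_of_nonneg_right (h2 _) (by positivity)
      refine Summable.tsum_le_tsum h4 ?_ (hsb.mul_left _)
      exact Summable.of_nonneg_of_le (fun h => by positivity) h4 (hsb.mul_left _)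
    · rw [mul_sum]
      refine sum_le_sum fun j _ => ?_
      rw [← mul_assoc]
      exact mul_le_mul_of_nonneg_right (h2 _) (by positivity)
  exact h3.trans (mul_le_mul_of_nonneg_left h1 (by positivity))

end Pool.Agent.Helper51.BR
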