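import Pool.Agent.Helper51.BR.Basic
import Pool.Agent.Helper51.BM.Code

/-!
# MP_175197_nt, project BR: the members without prime factor `> y`, and the codes for the members,
not prime powers, with a prime factor in `(K, y]`
-/

set_option autoImplicit false

namespace Pool.Agent.Helper51.BR

open Finset
open Pool.Agent.Helper9.PF
open Pool.Agent.Helper51.BM (cd cd_iff cd_le)

open Classical in
/-- the members `> y`, not prime powers, not rough, up to `X` -/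
noncomputable def SC (A : Set ℕ) (K y X : ℕ) : Finset ℕ :=
  (Icc 1 X).filter fun c => c ∈ A ∧ y < c ∧ ¬ Sp K c ∧ ¬ rough K y c

theorem card_SC {A : Set ℕ} {K : ℕ} (hA : Good A K) {y : ℕ} (hy : K.factorial ≤ y) (X : ℕ) :
    (SC A K y X).card ≤ K * y := by
  classical
  have h1 : SC A K y X ⊆ ((Icc 1 y).filter fun p => p.Prime ∧ K < p).biUnion fun p =>
      (SC A K y X).filter fun n => p ∣ n := by
    intro n hn
    have hn' := hn
    unfold SC at hn
    rw [mem_filter, mem_Icc] at hn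
    obtain ⟨h2, h3, h4, h4', h5⟩ := hn
    have h6 : ∃ p : ℕ, p.Prime ∧ p ∣ n ∧ K < p ∧ p ≤ y := by
      by_contra hcon
      push Not at hcon
      apply h5
      obtain ⟨p, hp, hpn, hKp⟩ := big_prime hA hy h3 h4' h4
      exact ⟨fun r hr hrn hKr => hcon r hr hrn hKr, p, hp, hpn, hcon p hp hpn hKp⟩
    obtain ⟨p, hp, hpn, hKp, hpy⟩ := h6
    rw [mem_biUnion]
    exact ⟨p, mem_filter.2 ⟨mem_Icc.2 ⟨hp.pos, hpy⟩, hp, hKp⟩, mem_filter.2 ⟨hn', hpn⟩⟩
  refine (card_le_card h1).trans (card_biUnion_le.trans ?_)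
  have h2 : ∑ p ∈ (Icc 1 y).filter (fun p => p.Prime ∧ K < p),
      ((SC A K y X).filter fun n => p ∣ n).card ≤
      ∑ _p ∈ (Icc 1 y).filter (fun p => p.Prime ∧ K < p), K := by
    refine sum_le_sum fun p hp => ?_
    rw [mem_filter] at hp
    refine hA.mult p hp.2.1 hp.2.2 _ fun n hn => ?_
    rw [mem_filter] at hn
    unfold SC at hn
    rw [mem_filter] at hn
    exact ⟨hn.1.2.1, hn.2, hn.1.2.2.2.1⟩
  refine h2.trans ?_
  rw [sum_const, smul_eq_mul, mul_comm]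
  refine Nat.mul_le_mul_left K ((card_filter_le _ _).trans ?_)
  rw [Nat.card_Icc]
  omega

/-- parity of the quotients -/
theorem odd_iff {A : Set ℕ} {K : ℕ} (hA : Good A K) {n d k k' : ℕ} (hn : n ∈ A)
    (hnp : ¬ Sp K n) (hd : Odd d)
    (hk : n ∣ k) (hk' : n ∣ k') (h : d * k ≡ d * k' [MOD 2 * K.factorial]) :
    Odd (k / n) ↔ Odd (k' / n) := by
  obtain ⟨s, m, h1, ⟨t, ht⟩, h3⟩ := hA.split n hn hnp
  have hn0 := hA.pos n hn
  obtain ⟨l, rfl⟩ := hk
  obtain ⟨l', rfl⟩ := hk'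
  rw [Nat.mul_div_cancel_left _ hn0, Nat.mul_div_cancel_left _ hn0]
  have hs0 : 0 < s := Nat.pos_of_ne_zero fun h0 => by
    rw [h1, h0, zero_mul] at hn0
    exact lt_irrefl _ hn0
  have hm : Odd m := by
    rw [← Nat.not_even_iff_odd, even_iff_two_dvd]
    intro h2
    have := h3 2 Nat.prime_two h2
    have := hA.two
    omega
  have e1 : d * (n * l) = s * (d * m * l) := by rw [h1]; ring
  have e2 : d * (n * l') = s * (d * m * l') := by rw [h1]; ring
  have e3 : 2 * K.factorial = s * (2 * t) := by rw [ht]; ring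
  rw [e1, e2, e3] at h
  have h4 := Nat.ModEq.mul_left_cancel' hs0.ne' h
  have h5 : d * m * l ≡ d * m * l' [MOD 2] := h4.of_mul_right t
  have hdm : Odd (d * m) := hd.mul hm
  have h6 : (d * m * l) % 2 = (d * m * l') % 2 := h5
  rw [Nat.mul_mod, Nat.mul_mod (d * m) l', Nat.odd_iff.1 hdm] at h6
  rw [Nat.odd_iff, Nat.odd_iff]
  omega

/-- parity of the quotient by divisibility -/
theorem odd_iff_not {n k : ℕ} (hn : 0 < n) (h : n ∣ k) : Odd (k / n) ↔ ¬ 2 * n ∣ k := by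
  obtain ⟨l, rfl⟩ := h
  rw [Nat.mul_div_cancel_left _ hn, ← Nat.not_even_iff_odd, even_iff_two_dvd, mul_comm 2 n,
    Nat.mul_dvd_mul_iff_left hn]

theorem gR_eq {A : Set ℕ} {K : ℕ} (hA : Good A K) (ε : ℕ → ℤ) {y V X N N' d i : ℕ} (hd : Odd d)
    (hy2 : 2 ≤ y) (hKy : K ≤ y) (hdy : ∀ p : ℕ, p.Prime → p ∣ d → p ≤ y)
    (hN : 1 ≤ N) (hN' : 1 ≤ N')
    (hNX : N + V ≤ X) (hNX' : N' + V ≤ X) (hi : i ≤ V) (hdN : d ∣ N + i) (hdN' : d ∣ N' + i)
    (hmod : N ≡ N' [MOD 2 * K.factorial])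
    (hsm : ∀ m : ℕ, (∀ p : ℕ, p.Prime → p ∣ m → p ≤ y) → (m ∣ N + i ↔ m ∣ N' + i))
    (hc : ∀ c ∈ SC A K y X, cd V (d * c) N = cd V (d * c) N') :
    gR A ε K y ((N + i) / d) = gR A ε K y ((N' + i) / d) := by
  classical
  have hd0 : 0 < d := hd.pos
  have hpos : ∀ N, 1 ≤ N → d ∣ N + i → (N + i) / d ≠ 0 := by
    intro N h1 h2
    have := Nat.div_pos (Nat.le_of_dvd (by omega) h2) hd0
    omega
  have key : ∀ N N', 1 ≤ N → 1 ≤ N' → N + V ≤ X → d ∣ N + i → d ∣ N' + i →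
      (∀ c ∈ SC A K y X, cd V (d * c) N = cd V (d * c) N') → ∀ n, n ∣ (N + i) / d → n ∈ A → y < n →
      ¬ Sp K n → ¬ rough K y n → n ∣ (N' + i) / d := by
    intro N N' h1 h1' h2 h3 h4 h5 n h6 h7 h8 h8' h9
    have h10 := hpos N h1 h3
    have h11 : n ≤ (N + i) / d := Nat.le_of_dvd (Nat.pos_of_ne_zero h10) h6
    have h12 : (N + i) / d ≤ N + i := Nat.div_le_self _ _
    have h13 : n ∈ SC A K y X := by
      unfold SC
      rw [mem_filter, mem_Icc]
      exact ⟨⟨by omega, by omega⟩, h7, h8, h8', h9⟩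
    have h14 : d * n ∣ N + i := by
      rw [← Nat.dvd_div_iff_mul_dvd h3]
      exact h6
    have h15 := (cd_iff (h5 n h13) hi).1 h14
    rw [Nat.dvd_div_iff_mul_dvd h4]
    exact h15
  have hmod' : d * ((N + i) / d) ≡ d * ((N' + i) / d) [MOD 2 * K.factorial] := by
    rw [Nat.mul_div_cancel' hdN, Nat.mul_div_cancel' hdN']
    exact hmod.add_right i
  -- small multiples of prime powers
  have key2 : ∀ n, 0 < n → Sp K n → ¬ rough K y n →
      (n ∣ (N + i) / d ∧ Odd ((N + i) / d / n) ↔ n ∣ (N' + i) / d ∧ Odd ((N' + i) / d / n)) := by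
    intro n hn0 hn hr
    obtain ⟨s, t, hs, ht, hst⟩ := hn
    have hs0 : 0 < s := Nat.pos_of_ne_zero fun h => by
      rw [hst, h, zero_mul] at hn0
      exact lt_irrefl _ hn0
    obtain ⟨p, k, hp, hk, hpk⟩ := (isPrimePow_nat_iff t).1 ht
    have hpn : ∀ r : ℕ, r.Prime → r ∣ n → r ≤ K ∨ r = p := by
      intro r hr hrn
      rw [hst, ← hpk] at hrn
      rcases (Nat.Prime.dvd_mul hr).1 hrn with h | h
      · left
        exact (Nat.le_of_dvd hs0 h).trans hs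
      · right
        exact (Nat.prime_dvd_prime_iff_eq hr hp).1 (hr.dvd_of_dvd_pow h)
    have hpy : p ≤ y := by
      by_contra hcon
      push Not at hcon
      apply hr
      refine ⟨fun r hr hrn hKr => ?_, p, hp, ?_, hcon⟩
      · rcases hpn r hr hrn with h | h
        · omega
        · rw [h]
          exact hcon
      · rw [hst, ← hpk]
        exact dvd_mul_of_dvd_right (dvd_pow_self p hk.ne') s
    have hpn2 : ∀ r : ℕ, r.Prime → r ∣ n → r ≤ y := by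
      intro r hr hrn
      rcases hpn r hr hrn with h | h
      · omega
      · rw [h]
        exact hpy
    have hny : ∀ r : ℕ, r.Prime → r ∣ d * n → r ≤ y := by
      intro r hr hrn
      rcases (Nat.Prime.dvd_mul hr).1 hrn with h | h
      · exact hdy r hr h
      · exact hpn2 r hr h
    have hny2 : ∀ r : ℕ, r.Prime → r ∣ d * (2 * n) → r ≤ y := by
      intro r hr hrn
      have e : d * (2 * n) = 2 * (d * n) := by ring
      rw [e] at hrn
      rcases (Nat.Prime.dvd_mul hr).1 hrn with h | h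
      · exact (Nat.le_of_dvd (by norm_num) h).trans hy2
      · exact hny r hr h
    have a1 : n ∣ (N + i) / d ↔ n ∣ (N' + i) / d := by
      rw [Nat.dvd_div_iff_mul_dvd hdN, Nat.dvd_div_iff_mul_dvd hdN']
      exact hsm _ hny
    have a2 : 2 * n ∣ (N + i) / d ↔ 2 * n ∣ (N' + i) / d := by
      rw [Nat.dvd_div_iff_mul_dvd hdN, Nat.dvd_div_iff_mul_dvd hdN']
      exact hsm _ hny2
    constructor
    · rintro ⟨h1, h2⟩
      refine ⟨a1.1 h1, ?_⟩
      rw [odd_iff_not hn0 (a1.1 h1), ← a2, ← odd_iff_not hn0 h1]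
      exact h2
    · rintro ⟨h1, h2⟩
      refine ⟨a1.2 h1, ?_⟩
      rw [odd_iff_not hn0 (a1.2 h1), a2, ← odd_iff_not hn0 h1]
      exact h2
  unfold gR
  congr 1
  ext n
  simp only [mem_filter, Nat.mem_divisors]
  by_cases hpp : Sp K n
  · constructor
    · rintro ⟨⟨h1, -⟩, ⟨h2, h3, h3'⟩, h4⟩
      have h5 := (key2 n (hA.pos n h2) hpp h4).1 ⟨h1, h3'⟩
      exact ⟨⟨h5.1, hpos N' hN' hdN'⟩, ⟨h2, h3, h5.2⟩, h4⟩
    · rintro ⟨⟨h1, -⟩, ⟨h2, h3, h3'⟩, h4⟩
      have h5 := (key2 n (hA.pos n h2) hpp h4).2 ⟨h1, h3'⟩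
      exact ⟨⟨h5.1, hpos N hN hdN⟩, ⟨h2, h3, h5.2⟩, h4⟩
  · constructor
    · rintro ⟨⟨h1, -⟩, ⟨h2, h3, h3'⟩, h4⟩
      have h5 := key N N' hN hN' hNX hdN hdN' hc n h1 h2 h3 hpp h4
      exact ⟨⟨h5, hpos N' hN' hdN'⟩, ⟨h2, h3, (odd_iff hA h2 hpp hd h1 h5 hmod').1 h3'⟩, h4⟩
    · rintro ⟨⟨h1, -⟩, ⟨h2, h3, h3'⟩, h4⟩
      have h5 := key N' N hN' hN hNX' hdN' hdN (fun c hcc => (hc c hcc).symm) n h1 h2 h3 hpp h4
      exact ⟨⟨h5, hpos N hN hdN⟩, ⟨h2, h3, (odd_iff hA h2 hpp hd h5 h1 hmod').2 h3'⟩, h4⟩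

/-- the divisors without prime factor `> y` are determined by the residue -/
theorem smooth_dvd {y P J a N i m : ℕ} (hP : ∀ p : ℕ, p.Prime → p ≤ y → p ∣ P)
    (h : N ≡ a [MOD P ^ J]) (ha : 0 < a + i) (haJ : a + i < 2 ^ J)
    (hm : ∀ p : ℕ, p.Prime → p ∣ m → p ≤ y) : m ∣ N + i ↔ m ∣ a + i := by
  have hmod : ∀ p : ℕ, p.Prime → p ≤ y → ∀ k ≤ J, (p ^ k ∣ N + i ↔ p ^ k ∣ a + i) := by
    intro p hp hpy k hk
    have h1 : p ^ k ∣ P ^ J := (pow_dvd_pow p hk).trans (pow_dvd_pow_of_dvd (hP p hp hpy) J)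
    exact ((h.of_dvd h1).add_right i).dvd_iff dvd_rfl
  have hlt : ∀ p : ℕ, p.Prime → ¬ p ^ J ∣ a + i := by
    intro p hp hd
    have h1 := Nat.le_of_dvd ha hd
    have h2 : 2 ^ J ≤ p ^ J := Nat.pow_le_pow_left hp.two_le J
    omega
  rw [Nat.dvd_iff_prime_pow_dvd_dvd, Nat.dvd_iff_prime_pow_dvd_dvd (a + i)]
  refine forall_congr' fun p => forall_congr' fun k => ?_
  constructor
  · intro h1 hp hpm
    have h2 := h1 hp hpm
    rcases Nat.eq_zero_or_pos k with rfl | hk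
    · simp
    · have hpy : p ≤ y := hm p hp ((dvd_pow_self p hk.ne').trans hpm)
      by_cases hkJ : k ≤ J
      · exact (hmod p hp hpy k hkJ).1 h2
      · push Not at hkJ
        have h3 : p ^ J ∣ N + i := (pow_dvd_pow p hkJ.le).trans h2
        exact absurd ((hmod p hp hpy J le_rfl).1 h3) (hlt p hp)
  · intro h1 hp hpm
    have h2 := h1 hp hpm
    rcases Nat.eq_zero_or_pos k with rfl | hk
    · simp
    · have hpy : p ≤ y := hm p hp ((dvd_pow_self p hk.ne').trans hpm)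
      by_cases hkJ : k ≤ J
      · exact (hmod p hp hpy k hkJ).2 h2
      · push Not at hkJ
        exact absurd ((pow_dvd_pow p hkJ.le).trans h2) (hlt p hp)

end Pool.Agent.Helper51.BR
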