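import Pool.Agent.Helper51.BR.Count
import Pool.Agent.Helper51.BR.Design
import Pool.Agent.Helper51.BR.Code
import Pool.Agent.Helper51.BR.Params
import Pool.Agent.Helper9.PF.ExistsA
import Pool.Agent.Helper9.PF.Primes

/-!
# MP_175197_nt, project BR: the core theorem
-/

set_option autoImplicit false

namespace Pool.Agent.Helper51.BR

open Finset Filter
open Pool.Agent.Helper9.PF
open Pool.Agent.Helper51.BM (RR q6 RR_ge)
open Pool.Agent.Helper51.BP (Th FR aR not_dvd_fac)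

private lemma qq_pos (G y : ℕ) : 0 < QQ G y := by
  unfold QQ
  exact Finset.prod_pos fun p hp => ((Finset.mem_filter.1 hp).2).pos

private lemma qq_prime {G y p : ℕ} (hp : p.Prime) (h : p ∣ QQ G y) : G < p ∧ p ≤ y := by
  unfold QQ at h
  obtain ⟨r, hr, hpr⟩ := (hp.prime.dvd_finsetProd_iff _).1 h
  rw [Finset.mem_filter, Finset.mem_Ioc] at hr
  rw [(Nat.prime_dvd_prime_iff_eq hp hr.2).1 hpr]
  exact hr.1

private lemma qq_odd {G y : ℕ} (hG : 2 ≤ G) : Odd (QQ G y) := by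
  rw [← Nat.coprime_two_left]
  unfold QQ
  refine Nat.Coprime.prod_right fun p hp => ?_
  rw [Finset.mem_filter, Finset.mem_Ioc] at hp
  rw [Nat.coprime_primes Nat.prime_two hp.2]
  omega

private lemma qq_cop {G y K : ℕ} (hG : 2 ≤ G) (hK : K ≤ G) :
    Nat.Coprime (QQ G y) (4 * K.factorial) := by
  unfold QQ
  refine Nat.Coprime.prod_left fun p hp => ?_
  rw [Finset.mem_filter, Finset.mem_Ioc] at hp
  rw [Nat.Prime.coprime_iff_not_dvd hp.2, Nat.Prime.dvd_mul hp.2]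
  rintro (h | h)
  · have h2 : p ∣ 2 ^ 2 := h
    have h3 := Nat.le_of_dvd (by norm_num) (hp.2.dvd_of_dvd_pow h2)
    omega
  · exact not_dvd_fac hp.2 (by omega) h

private lemma bad_congr {Q D G E W a a₀ : ℕ} (h : a ≡ a₀ [MOD Q]) :
    Bad Q D G E W a = Bad Q D G E W a₀ := by
  classical
  have h1 : ∀ i, (a + i).gcd Q = (a₀ + i).gcd Q := fun i => (h.add_right i).gcd_eq
  have h2 : ∀ i c, (a + i + c).gcd Q = (a₀ + i + c).gcd Q :=
    fun i c => ((h.add_right i).add_right c).gcd_eq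
  unfold Bad
  refine Finset.filter_congr fun i _ => ?_
  unfold IsBad
  rw [h1 i]
  simp only [h2]

private lemma block {T b : ℕ} (hT : 0 < T) (hb : b < T) (E w : ℕ) :
    w ≤ ((Ioc E (E + T * w)).filter (fun i => i % T = b)).card := by
  induction w with
  | zero => exact Nat.zero_le _
  | succ w ih =>
    obtain ⟨i, hi1, hi2, hi3⟩ : ∃ i, E + T * w < i ∧ i ≤ E + T * (w + 1) ∧ i % T = b := by
      obtain ⟨X, hX⟩ : ∃ X, X = E + T * w := ⟨_, rfl⟩
      have hX2 : E + T * (w + 1) = X + T := by rw [hX]; ring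
      rw [hX2, ← hX]
      by_cases h : b ≤ X
      · refine ⟨T * ((X - b) / T + 1) + b, ?_, ?_, ?_⟩
        · have h1 := Nat.lt_mul_div_succ (X - b) hT
          omega
        · have h1 := Nat.mul_div_le (X - b) T
          have h2 : T * ((X - b) / T + 1) = T * ((X - b) / T) + T := by ring
          omega
        · rw [Nat.mul_add_mod, Nat.mod_eq_of_lt hb]
      · exact ⟨b, by omega, by omega, Nat.mod_eq_of_lt hb⟩
    have hsub : insert i ((Ioc E (E + T * w)).filter (fun i => i % T = b)) ⊆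
        (Ioc E (E + T * (w + 1))).filter (fun i => i % T = b) := by
      intro x hx
      rw [Finset.mem_insert] at hx
      rw [Finset.mem_filter, Finset.mem_Ioc]
      rcases hx with rfl | hx
      · exact ⟨⟨by omega, hi2⟩, hi3⟩
      · rw [Finset.mem_filter, Finset.mem_Ioc] at hx
        have : T * (w + 1) = T * w + T := by ring
        exact ⟨⟨hx.1.1, by omega⟩, hx.2⟩
    have hni : i ∉ (Ioc E (E + T * w)).filter (fun i => i % T = b) := by
      rw [Finset.mem_filter, Finset.mem_Ioc]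
      omega
    have := Finset.card_le_card hsub
    rw [Finset.card_insert_of_notMem hni] at this
    omega

private lemma pick (T : ℕ) (hT : 0 < T) (B : Finset ℕ) :
    ∃ b < T, T * (B.filter (fun i => i % T = b)).card ≤ B.card := by
  by_contra hcon
  push Not at hcon
  have h1 : B.card = ∑ b ∈ range T, (B.filter (fun i => i % T = b)).card := by
    refine Finset.card_eq_sum_card_fiberwise fun i _ => ?_
    rw [Finset.mem_coe, mem_range]
    exact Nat.mod_lt _ hT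
  have h2 : ∑ _b ∈ range T, B.card < ∑ b ∈ range T, T * (B.filter (fun i => i % T = b)).card := by
    refine sum_lt_sum_of_nonempty ⟨0, mem_range.2 hT⟩ fun b hb => ?_
    exact hcon b (mem_range.1 hb)
  rw [← mul_sum, ← h1, sum_const, card_range, smul_eq_mul] at h2
  exact lt_irrefl _ h2

private lemma hpow_le {L : ℕ} (hL : 1 ≤ L) : 2 ^ L ≤ YY L ^ 2 := by
  have h1 : L ≤ 2 ^ (2 ^ (L - 1)) := by
    have h2 : L - 1 < 2 ^ (L - 1) := Nat.lt_two_pow_self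
    have h3 : 2 ^ (L - 1) < 2 ^ (2 ^ (L - 1)) := Nat.lt_two_pow_self
    omega
  have h2 : 2 ^ L ≤ YY L := by
    unfold YY
    exact Nat.pow_le_pow_right (by norm_num) h1
  exact h2.trans (Nat.le_self_pow (by norm_num) _)

open Classical in
/-- The core, for one class of primes and one `l`. -/
theorem core_l (A : Set ℕ) {K : ℕ} (hA : Good A K) (θ ε : ℕ → ℤ)
    (hθ : Th θ) (hε1 : ∀ p, |ε p| ≤ 1) (lam : ℝ) (hlam : 3 / 2 ≤ lam) (K₀ : ℕ)
    (hD : ∀ y : ℕ, 2 ≤ y → Nonempty (Dyn lam (aR A ε θ y) ((K₀ : ℝ) ^ (y ^ 2))))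
    (s₀ : ℕ) (hs₀ : s₀ ∣ K.factorial)
    (e₀ : ℤ) (he₀ : |e₀| = 1) (l T : ℕ) (hKl : 2 * K ≤ l) (hT : T = 4 * K.factorial)
    (P : Finset ℕ) (hP : P.card = 2 ^ (l ^ 8))
    (hP2 : ∀ q ∈ P, (q.Prime ∧ K < q ∧ s₀ * q ∈ A ∧ (∀ s, s ∣ s₀ → s ≠ s₀ → s * q ∉ A) ∧
      ε (s₀ * q) = e₀) ∧ 2 ^ (l ^ 8) < q ∧ q ≤ 2 ^ (2 ^ (2 ^ (l - 2))))
    (h1 : 2 ≤ GG (T * l) ∧ GG (T * l) ≤ yy (T * l) ∧
      64 * (GG (T * l) : ℝ) ^ 2 ≤ Real.log (yy (T * l)))
    (h2 : 2 ≤ DD (T * l) ∧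
      64 * (Real.log (yy (T * l)) * (1 + Real.log (yy (T * l)))) ≤ Real.log (DD (T * l)))
    (h3 : 64 * (GG (T * l) * DD (T * l)) ≤ WW (T * l))
    (h4 : 8 * ((VV (T * l) : ℝ) + 1) * (1 + Real.log (YY l)) < 2 ^ (2 ^ l + 1))
    (h5 : ∀ lam : ℝ, 3 / 2 ≤ lam → 4 * (bP T l : ℝ) + 2 * (30 * (l : ℝ)) < lam ^ GG (T * l))
    (h6 : ∀ lam : ℝ, 3 / 2 ≤ lam → ∀ M ≤ YY l ^ 2, (Nat.log 2 M : ℝ) ≤ lam ^ (2 ^ l))
    (h6' : ∀ lam : ℝ, 3 / 2 ≤ lam → (RR l : ℝ) ≤ (30 * (l : ℝ)) * lam ^ (2 ^ l))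
    (h7 : l * (WW (T * l) * uP T l) ≤ 2 ^ (l ^ 8) ∧ VV (T * l) ≤ 2 ^ (l ^ 8) ∧
      yy (T * l) ≤ 2 ^ (l ^ 8))
    (h8 : 16 * (RM T (T * l) * QQ (GG (T * l)) (yy (T * l)) * ZZ l ^ (2 * (WW (T * l) * uP T l))) ≤ YY l)
    (h9 : VV (T * l) ≤ YY l) (h9' : 32 * (VV (T * l) + 1) ≤ Nat.sqrt (YY l))
    (h10 : ∀ bI : ℕ, 16 * T * bI ≤ WW (T * l) →
      (2 * bP T l + 1) ^ bI * (2 * NB T l + 1) ^ (WW (T * l) / 16) *
      ((2 * (K₀ ^ (yy (T * l) ^ 2) * (RR l + 1)) + 1) ^ 2) ^ DD (T * l) *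
      (VV (T * l) + 2) ^ (l * yy (T * l) * DD (T * l)) <
        (2 ^ (T * l)) ^ (WW (T * l) / T)) :
    False := by
  have hK2 := hA.two
  have hTpos : 0 < T := by
    rw [hT]
    exact Nat.mul_pos (by norm_num) (Nat.factorial_pos _)
  have hT4 : 4 ≤ T := by
    rw [hT]
    have := Nat.factorial_pos K
    omega
  obtain ⟨L, hL⟩ : ∃ L, L = T * l := ⟨_, rfl⟩
  rw [← hL] at h1 h2 h3 h4 h5 h7 h8 h9 h9' h10
  obtain ⟨hG2, hGy, hy⟩ := h1
  obtain ⟨hD2, hDlog⟩ := h2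
  have hl1 : 1 ≤ l := by omega
  have hL1 : 1 ≤ L := by
    rw [hL]
    exact Nat.mul_pos hTpos hl1
  have hlL : l ≤ L := by
    rw [hL]
    exact Nat.le_mul_of_pos_left _ hTpos
  have hTL : T ≤ L := by
    rw [hL]
    exact Nat.le_mul_of_pos_right _ hl1
  have hKG : K ≤ GG L := by
    unfold GG
    omega
  have hKy : K.factorial ≤ yy L := by
    have e1 : L ≤ eta L := by
      unfold eta
      nlinarith
    have e2 : eta L < yy L := Nat.lt_two_pow_self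
    omega
  have hy2 : 2 ≤ yy L := hG2.trans hGy
  have hKyy : K ≤ yy L := (Nat.self_le_factorial K).trans hKy
  obtain ⟨dyn⟩ := hD (yy L) hy2
  obtain ⟨a₀, ha₀⟩ := exists_a (GG L) (yy L) (DD L) (WW L) (EE L) hG2 hGy hy hD2 hDlog h3
  obtain ⟨b, hbT, hbc⟩ := pick T hTpos (Bad (QQ (GG L) (yy L)) (DD L) (GG L) (EE L) (WW L) a₀)
  have hcop : Nat.Coprime (QQ (GG L) (yy L)) T := by
    rw [hT]
    exact qq_cop hG2 hKG
  have hQpos := qq_pos (GG L) (yy L)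
  obtain ⟨a, haQ, haT, ha1, ha2⟩ : ∃ a, 0 < a ∧ a < 2 * (QQ (GG L) (yy L) * T) ∧
      a ≡ a₀ [MOD QQ (GG L) (yy L)] ∧ a ≡ s₀ + (T - b) [MOD T] := by
    obtain ⟨c, hc1, hc2⟩ : ∃ c, c ≡ a₀ [MOD QQ (GG L) (yy L)] ∧ c ≡ s₀ + (T - b) [MOD T] :=
      ⟨_, (Nat.chineseRemainder hcop a₀ (s₀ + (T - b))).2⟩
    have hpos : 0 < QQ (GG L) (yy L) * T := Nat.mul_pos hQpos hTpos
    have hm : c % (QQ (GG L) (yy L) * T) < QQ (GG L) (yy L) * T := Nat.mod_lt _ hpos
    have hcm : c % (QQ (GG L) (yy L) * T) + QQ (GG L) (yy L) * T ≡ c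
        [MOD QQ (GG L) (yy L) * T] := by
      have h1 : c % (QQ (GG L) (yy L) * T) + QQ (GG L) (yy L) * T ≡ c + 0
          [MOD QQ (GG L) (yy L) * T] :=
        (Nat.mod_modEq _ _).add ((Nat.modEq_zero_iff_dvd).mpr dvd_rfl)
      rwa [add_zero] at h1
    refine ⟨c % (QQ (GG L) (yy L) * T) + QQ (GG L) (yy L) * T, by omega, by omega, ?_, ?_⟩
    · exact (hcm.of_mul_right _).trans hc1
    · exact (hcm.of_mul_left _).trans hc2
  have hbad := bad_congr (D := DD L) (G := GG L) (E := EE L) (W := WW L) ha1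
  rw [← hbad] at ha₀ hbc
  obtain ⟨I, hIdef⟩ : ∃ I, I = (Ioc (EE L) (EE L + WW L)).filter (fun i => i % T = b) :=
    ⟨_, rfl⟩
  have hVdef : VV L = 2 * EE L + WW L := rfl
  have hIcard : WW L / T ≤ I.card := by
    have e1 := block hTpos hbT (EE L) (WW L / T)
    have e2 : T * (WW L / T) ≤ WW L := Nat.mul_div_le _ _
    refine e1.trans (Finset.card_le_card ?_)
    rw [hIdef]
    intro i hi
    rw [Finset.mem_filter, Finset.mem_Ioc] at hi ⊢
    exact ⟨⟨hi.1.1, by omega⟩, hi.2⟩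
  have hIle : I.card ≤ WW L := by
    rw [hIdef]
    refine (Finset.card_filter_le _ _).trans ?_
    rw [Nat.card_Ioc]
    omega
  have hIV : ∀ i ∈ I, i ≤ VV L := by
    intro i hi
    rw [hIdef, Finset.mem_filter, Finset.mem_Ioc] at hi
    omega
  have hIs : ∀ i ∈ I, a + i ≡ s₀ [MOD 2 * K.factorial] := by
    intro i hi
    rw [hIdef, Finset.mem_filter] at hi
    have e1 : i ≡ b [MOD T] := by
      have : i % T = b % T := by rw [hi.2, Nat.mod_eq_of_lt hbT]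
      exact this
    have e2 : a + i ≡ (s₀ + (T - b)) + b [MOD T] := ha2.add e1
    have e3 : (s₀ + (T - b)) + b = s₀ + T := by omega
    rw [e3] at e2
    have e4 : s₀ + T ≡ s₀ + 0 [MOD T] :=
      Nat.ModEq.add_left _ ((Nat.modEq_zero_iff_dvd).mpr dvd_rfl)
    refine (e2.trans e4).of_dvd ?_
    rw [hT]
    exact Nat.mul_dvd_mul_right (by norm_num) _
  obtain ⟨P₁, hP₁, hPind, hPcard⟩ := exists_indep A hA s₀ hs₀ P
    (fun p hp => ⟨(hP2 p hp).1.1, (hP2 p hp).1.2.1⟩) (fun p hp => (hP2 p hp).1.2.2.1)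
  obtain ⟨q, hq1, hq2⟩ := exists_q P₁ I (uP T l) (by
    have e1 : (K + 1) * (I.card * uP T l) ≤ (K + 1) * P₁.card := by
      calc (K + 1) * (I.card * uP T l) ≤ l * (WW L * uP T l) :=
            Nat.mul_le_mul (by omega) (Nat.mul_le_mul_right _ hIle)
        _ ≤ 2 ^ (l ^ 8) := h7.1
        _ = P.card := hP.symm
        _ ≤ (K + 1) * P₁.card := hPcard
    exact Nat.le_of_mul_le_mul_left e1 (by omega))
  have hQpr : ∀ p : ℕ, p.Prime → p ∣ QQ (GG L) (yy L) → K < p ∧ p ≤ yy L := fun p hp h =>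
    ⟨lt_of_le_of_lt hKG (qq_prime hp h).1, (qq_prime hp h).2⟩
  have hPrim : ∀ p : ℕ, p.Prime → p ≤ yy L → p ∣ primorial (yy L) := by
    intro p hp hpy
    unfold primorial
    exact Finset.dvd_prod_of_mem _ (Finset.mem_filter.2 ⟨Finset.mem_range.2 (by omega), hp⟩)
  have hPrim2 : ∀ p : ℕ, p.Prime → p ∣ primorial (yy L) → p ≤ yy L := by
    intro p hp h
    unfold primorial at h
    obtain ⟨r, hr, hpr⟩ := (hp.prime.dvd_finsetProd_iff _).1 h
    rw [Finset.mem_filter, Finset.mem_range] at hr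
    rw [(Nat.prime_dvd_prime_iff_eq hp hr.2).1 hpr]
    omega
  have hJM : 1 ≤ JM T L := by
    unfold JM
    omega
  have hRMpos : 0 < RM T L := Nat.mul_pos hTpos (pow_pos (primorial_pos _) _)
  have hRMP : primorial (yy L) ^ JM T L ∣ RM T L * QQ (GG L) (yy L) :=
    (dvd_mul_left _ T).trans (dvd_mul_right _ _)
  have hTRM : T ∣ RM T L := dvd_mul_right _ _
  have hQy : ∀ p : ℕ, p.Prime → p ≤ yy L → p ∣ RM T L * QQ (GG L) (yy L) := by
    intro p hp hpy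
    exact ((hPrim p hp hpy).trans (dvd_pow_self _ (by omega))).trans hRMP
  have hQ4 : ∀ p : ℕ, p.Prime → p ∣ RM T L * QQ (GG L) (yy L) → p ≤ yy L := by
    intro p hp h
    rcases (hp.dvd_mul).1 h with h | h
    · unfold RM at h
      rcases (hp.dvd_mul).1 h with h | h
      swap
      · exact hPrim2 p hp (hp.dvd_of_dvd_pow h)
      rw [hT] at h
      rcases (hp.dvd_mul).1 h with h | h
      · have : p ∣ 2 ^ 2 := h
        have h2 := hp.dvd_of_dvd_pow this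
        exact (Nat.le_of_dvd (by norm_num) h2).trans hy2
      · exact ((hp.dvd_factorial).1 h).trans hKyy
    · exact (hQpr p hp h).2
  have hZ1 : 1 ≤ ZZ l := Nat.one_le_two_pow
  have hsize : 16 * (RM T L * QQ (GG L) (yy L) * ZZ l ^ (2 * (I.card * uP T l))) ≤ YY l := by
    refine le_trans ?_ h8
    refine Nat.mul_le_mul_left _ (Nat.mul_le_mul_left _ ?_)
    exact Nat.pow_le_pow_right hZ1 (Nat.mul_le_mul_left 2 (Nat.mul_le_mul_right _ hIle))
  have hqq : ∀ i ∈ I, ∀ j < uP T l, q i j ∈ P₁ ∧ (q i j).Prime ∧ s₀ * q i j ∈ A ∧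
      (∀ s, s ∣ s₀ → s ≠ s₀ → s * q i j ∉ A) ∧ yy L < q i j ∧
      VV L < q i j ∧ q i j ≤ ZZ l ∧ ε (s₀ * q i j) = e₀ := by
    intro i hi j hj
    have h0 := hq1 i hi j hj
    obtain ⟨⟨h1, h2, h3, h4, h5⟩, h6, h7'⟩ := hP2 _ (hP₁ h0)
    exact ⟨h0, h1, h3, h4, lt_of_le_of_lt h7.2.2 h6, lt_of_le_of_lt h7.2.1 h6, h7', h5⟩
  -- the integers
  have hex : ∀ t : I → Fin (2 ^ L), ∃ N, N ≡ a [MOD RM T L * QQ (GG L) (yy L)] ∧ YY l ≤ N ∧
      N + VV L ≤ YY l ^ 2 ∧ ∀ i ≤ VV L, |fR A ε K (yy L) (N + i) -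
        (if h : i ∈ I then e₀ * (((2 * NB T l + 1) * (t ⟨i, h⟩ : ℕ) : ℕ) : ℤ) else 0)| ≤
          (NB T l : ℤ) := by
    intro t
    obtain ⟨N, hN1, hN2, hN3, hN4⟩ := design A hA ε hε1 (yy L) (RM T L * QQ (GG L) (yy L)) (VV L)
      (YY l) (2 ^ l) a (uP T l) (ZZ l) s₀ (JJ L) e₀ hKy P₁ hPind I q hIV
      (Nat.mul_pos hRMpos hQpos) hQ4
      hs₀ ((by
        rw [hT]
        exact (Nat.mul_dvd_mul_right (by norm_num) _ : 2 * K.factorial ∣ 4 * K.factorial) :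
          2 * K.factorial ∣ T).trans (hTRM.trans (dvd_mul_right _ _))) hIs hqq hq2 hZ1
      hsize h9 h4 hQy hy2 (by unfold JJ; omega) (s1 hL1) h9'
      (fun i => if h : i ∈ I then (2 * NB T l + 1) * (t ⟨i, h⟩ : ℕ) else 0) (by
        intro i
        split_ifs with h
        · unfold uP
          rw [← hL]
          exact Nat.mul_le_mul_left _ (t ⟨i, h⟩).2.le
        · exact Nat.zero_le _)
    have hnn : (((K + K * JJ L) * 2 ^ l : ℕ) : ℤ) ≤ (NB T l : ℤ) := by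
      unfold NB
      rw [← hL]
      have hKl' : K ≤ l := by omega
      exact_mod_cast Nat.mul_le_mul_right _
        (Nat.add_le_add hKl' (Nat.mul_le_mul_right _ hKl') : K + K * JJ L ≤ l + l * JJ L)
    refine ⟨N, hN1, hN2, hN3, fun i hi => ?_⟩
    have := (hN4 i hi).trans hnn
    by_cases h : i ∈ I
    · simp only [h, ↓reduceIte, ↓reduceDIte] at this ⊢
      exact this
    · simp only [h, ↓reduceIte, ↓reduceDIte] at this ⊢
      exact this
  choose N hN1 hN2 hN3 hN4 using hex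
  have hYpos : 1 ≤ YY l := Nat.one_le_two_pow
  have hNpos : ∀ t, 1 ≤ N t := fun t => hYpos.trans (hN2 t)
  have hpow : 0 < 2 ^ L := by positivity
  obtain ⟨Bf, hBfdef⟩ : ∃ Bf : ℕ → ℕ, ∀ i, Bf i = if i ∈ I then bP T l else NB T l :=
    ⟨_, fun _ => rfl⟩
  have hBi : ∀ t, ∀ i ≤ VV L, |fR A ε K (yy L) (N t + i)| ≤ (Bf i : ℤ) := by
    intro t i hi
    have h := hN4 t i hi
    rw [hBfdef]
    split_ifs at h with hiI
    · rw [if_pos hiI]
      have hBdef : (bP T l : ℤ) = (uP T l : ℤ) + (NB T l : ℤ) := by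
        unfold bP
        push_cast
        ring
      rw [hBdef]
      have h3 : |e₀ * (((2 * NB T l + 1) * (t ⟨i, hiI⟩ : ℕ) : ℕ) : ℤ)| ≤ (uP T l : ℤ) := by
        rw [abs_mul, he₀, one_mul, abs_of_nonneg (Int.natCast_nonneg _)]
        have h5 : (2 * NB T l + 1) * (t ⟨i, hiI⟩ : ℕ) ≤ uP T l := by
          unfold uP
          rw [← hL]
          exact Nat.mul_le_mul_left _ (t ⟨i, hiI⟩).2.le
        exact_mod_cast h5
      have h4 := abs_sub_abs_le_abs_sub (fR A ε K (yy L) (N t + i))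
        (e₀ * (((2 * NB T l + 1) * (t ⟨i, hiI⟩ : ℕ) : ℕ) : ℤ))
      linarith
    · rw [if_neg hiI]
      rw [sub_zero] at h
      exact h
  have hBf_le : ∀ i, Bf i ≤ bP T l := by
    intro i
    rw [hBfdef]
    unfold bP
    split_ifs
    · exact le_rfl
    · omega
  have hBall : ∀ t, ∀ i ≤ VV L, |fR A ε K (yy L) (N t + i)| ≤ (bP T l : ℤ) := by
    intro t i hi
    exact (hBi t i hi).trans (by exact_mod_cast hBf_le i)
  have hbet : ∀ t d i, i ≤ VV L → 0 < d → d ∣ N t + i →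
      bet lam (aR A ε θ (yy L)) ((N t + i) / d) ≤ (RR l : ℝ) := by
    intro t d i hi hd0 hdi
    have e1 : 1 ≤ (N t + i) / d := by
      rw [Nat.one_le_div_iff hd0]
      have := hNpos t
      exact Nat.le_of_dvd (by omega) hdi
    have e2 : (N t + i) / d ≤ YY l ^ 2 := by
      refine (Nat.div_le_self _ _).trans ?_
      have := hN3 t
      omega
    have e3 := bet_crude hlam hA hε1 hθ hKy e1
      (h6 lam hlam _ e2) (le_refl ((N t + i) / d + 2 ^ l))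
    refine e3.trans (RR_ge hKl ?_)
    have := hpow_le hl1
    omega
  have hED : DD L ≤ EE L := by
    unfold EE
    exact Nat.le_mul_of_pos_right _ (by omega)
  -- different t give different vectors
  have hdiff : ∀ t t', (∀ i, EE L < i → i ≤ EE L + WW L →
      fR A ε K (yy L) (N t + i) = fR A ε K (yy L) (N t' + i)) → t = t' := by
    intro t t' h
    funext ⟨i, hi⟩
    have hi' := hi
    rw [hIdef, Finset.mem_filter, Finset.mem_Ioc] at hi'
    have h1 := h i hi'.1.1 hi'.1.2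
    have h2 := hN4 t i (hIV i hi)
    have h3 := hN4 t' i (hIV i hi)
    rw [dif_pos hi] at h2 h3
    rw [← h1] at h3
    have h4 : |e₀ * (((2 * NB T l + 1) * (t ⟨i, hi⟩ : ℕ) : ℕ) : ℤ) -
        e₀ * (((2 * NB T l + 1) * (t' ⟨i, hi⟩ : ℕ) : ℕ) : ℤ)| ≤ 2 * (NB T l : ℤ) := by
      have := abs_sub_le (e₀ * (((2 * NB T l + 1) * (t ⟨i, hi⟩ : ℕ) : ℕ) : ℤ))
        (fR A ε K (yy L) (N t + i)) (e₀ * (((2 * NB T l + 1) * (t' ⟨i, hi⟩ : ℕ) : ℕ) : ℤ))
      rw [abs_sub_comm] at h2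
      linarith
    rw [← mul_sub, abs_mul, he₀, one_mul] at h4
    have h5 : (((2 * NB T l + 1) * (t ⟨i, hi⟩ : ℕ) : ℕ) : ℤ) -
        (((2 * NB T l + 1) * (t' ⟨i, hi⟩ : ℕ) : ℕ) : ℤ) =
        (2 * (NB T l : ℤ) + 1) * (((t ⟨i, hi⟩ : ℕ) : ℤ) - ((t' ⟨i, hi⟩ : ℕ) : ℤ)) := by
      push_cast
      ring
    rw [h5, abs_mul, abs_of_nonneg (by positivity : (0:ℤ) ≤ 2 * (NB T l : ℤ) + 1)] at h4
    have h6 : |((t ⟨i, hi⟩ : ℕ) : ℤ) - ((t' ⟨i, hi⟩ : ℕ) : ℤ)| < 1 := by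
      by_contra hcon
      push Not at hcon
      have h7 : (2 * (NB T l : ℤ) + 1) * 1 ≤ (2 * (NB T l : ℤ) + 1) *
          |((t ⟨i, hi⟩ : ℕ) : ℤ) - ((t' ⟨i, hi⟩ : ℕ) : ℤ)| :=
        mul_le_mul_of_nonneg_left hcon (by positivity)
      linarith
    rw [Int.abs_lt_one_iff, sub_eq_zero] at h6
    exact Fin.ext (by exact_mod_cast h6)
  have hNinj : Function.Injective N := by
    intro t t' h
    refine hdiff t t' fun i _ _ => ?_
    rw [h]
  obtain ⟨𝒩, h𝒩⟩ : ∃ 𝒩 : Finset ℕ, 𝒩 = Finset.univ.image N := ⟨_, rfl⟩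
  have hmem : ∀ M ∈ 𝒩, ∃ t, N t = M := by
    intro M hM
    rw [h𝒩, Finset.mem_image] at hM
    obtain ⟨t, -, ht⟩ := hM
    exact ⟨t, ht⟩
  have hcard : 𝒩.card = (2 ^ L) ^ I.card := by
    rw [h𝒩, Finset.card_image_of_injective _ hNinj, Finset.card_univ, Fintype.card_fun,
      Fintype.card_fin, Fintype.card_coe]
  have hVH : EE L + WW L + 2 ^ l * DD L ≤ VV L := by
    have e1 : 2 ^ l * DD L ≤ EE L := by
      unfold EE
      rw [mul_comm]
      have : 2 ^ l ≤ 2 ^ L := Nat.pow_le_pow_right (by norm_num) hlL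
      exact Nat.mul_le_mul_left _ (by omega)
    omega
  have hBadV : ∀ i ∈ Bad (QQ (GG L) (yy L)) (DD L) (GG L) (EE L) (WW L) a, i ≤ VV L := by
    intro i hi
    unfold Bad at hi
    rw [mem_filter, mem_Ioc] at hi
    omega
  have hsmall : ∀ t, ∀ i ≤ VV L, ∀ m : ℕ, (∀ p : ℕ, p.Prime → p ∣ m → p ≤ yy L) →
      (m ∣ N t + i ↔ m ∣ a + i) := by
    intro t i hi m hm
    have e1 := s2 hL1 haT
    exact smooth_dvd (J := JM T L) hPrim ((hN1 t).of_dvd hRMP) (by omega) (by omega) hm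
  have hcount := count (lam := lam) (K := (K₀ : ℝ) ^ (yy L ^ 2)) hlam hA hKy hy2 hθ
    dyn (Q := QQ (GG L) (yy L)) (D := DD L) (G := GG L) (E := EE L) (W := WW L) (V := VV L)
    (X := YY l ^ 2) (H := 2 ^ l) (a := a) (B := bP T l) (Rm := RM T L)
    (K₁ := K₀ ^ (yy L ^ 2) * (RR l + 1)) (Rc := (RR l : ℝ)) (ρ := 30 * (l : ℝ)) hQpr hQpos
    (qq_odd hG2) ((by rw [hT]; exact dvd_mul_right _ _ : 4 ∣ T).trans hTRM)
    ((by rw [hT]; exact Nat.mul_dvd_mul_right (by norm_num) _ : 2 * K.factorial ∣ T).trans hTRM) Bf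
    (h5 lam hlam) (h6' lam hlam) hVH (by positivity) (by
      push_cast
      refine le_of_eq ?_
      ring) 𝒩 (by
      intro M hM
      obtain ⟨t, rfl⟩ := hmem M hM
      exact hNpos t) (by
      intro M hM
      obtain ⟨t, rfl⟩ := hmem M hM
      exact hN3 t) (by
      intro M hM
      obtain ⟨t, rfl⟩ := hmem M hM
      exact hN1 t) (by
      intro M hM M' hM' i hi m hm
      obtain ⟨t, rfl⟩ := hmem M hM
      obtain ⟨t', rfl⟩ := hmem M' hM'
      rw [hsmall t i hi m hm, hsmall t' i hi m hm]) (by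
      intro M hM i hi
      obtain ⟨t, rfl⟩ := hmem M hM
      exact hBall t i hi) (by
      intro M hM i hi
      obtain ⟨t, rfl⟩ := hmem M hM
      exact hBi t i (hBadV i hi)) (by
      intro M hM i d hi hd0 _ _ hdi
      obtain ⟨t, rfl⟩ := hmem M hM
      exact hbet t d i hi hd0 hdi) (by
      intro M hM d hd0 hdQ hdD
      obtain ⟨t, rfl⟩ := hmem M hM
      have e1 := i0_gt a (EE L) hd0
      have e2 := i0_dvd a (EE L) hd0
      have e3 := i0_le a (EE L) hd0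
      have e4 : d ∣ N t + i0 a (EE L) d := by
        have h1 : N t + i0 a (EE L) d ≡ a + i0 a (EE L) d [MOD d] :=
          Nat.ModEq.add_right _ ((hN1 t).of_dvd (Dvd.dvd.mul_left hdQ (RM T L)))
        exact (h1.dvd_iff dvd_rfl).2 e2
      have e5 : d ∣ N t + (i0 a (EE L) d - d) := by
        have : N t + (i0 a (EE L) d - d) = N t + i0 a (EE L) d - d := by omega
        rw [this]
        exact Nat.dvd_sub e4 dvd_rfl
      have e6 : (N t + i0 a (EE L) d) / d - 1 = (N t + (i0 a (EE L) d - d)) / d := by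
        have : N t + i0 a (EE L) d = N t + (i0 a (EE L) d - d) + d := by omega
        rw [this, Nat.add_div_right _ hd0]
        rfl
      rw [e6]
      exact hbet t d _ (by omega) hd0 e5) (by
      intro M hM M' hM' h
      obtain ⟨t, rfl⟩ := hmem M hM
      obtain ⟨t', rfl⟩ := hmem M' hM'
      rw [hdiff t t' h])
  rw [hcard] at hcount
  obtain ⟨Bd, hBd⟩ : ∃ Bd, Bd = Bad (QQ (GG L) (yy L)) (DD L) (GG L) (EE L) (WW L) a := ⟨_, rfl⟩
  rw [← hBd] at hcount ha₀ hbc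
  have hBadle : Bd.card ≤ WW L / 16 := by omega
  obtain ⟨bI, hbI⟩ : ∃ bI, bI = (Bd.filter (fun i => i % T = b)).card := ⟨_, rfl⟩
  rw [← hbI] at hbc
  have hbI16 : 16 * T * bI ≤ WW L := by
    calc 16 * T * bI = 16 * (T * bI) := by ring
      _ ≤ 16 * Bd.card := Nat.mul_le_mul_left _ hbc
      _ ≤ WW L := ha₀
  have hprod : ∏ i ∈ Bd, (2 * Bf i + 1) ≤ (2 * bP T l + 1) ^ bI * (2 * NB T l + 1) ^ (WW L / 16) := by
    rw [← Finset.prod_filter_mul_prod_filter_not Bd (fun i => i % T = b)]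
    refine Nat.mul_le_mul ?_ ?_
    · rw [hbI, ← Finset.prod_const]
      exact Finset.prod_le_prod (fun _ _ => Nat.zero_le _) fun i _ => by
        have := hBf_le i
        omega
    · have e1 : ∏ i ∈ Bd.filter (fun i => ¬ i % T = b), (2 * Bf i + 1) =
          (2 * NB T l + 1) ^ (Bd.filter (fun i => ¬ i % T = b)).card := by
        rw [← Finset.prod_const]
        refine Finset.prod_congr rfl fun i hi => ?_
        rw [mem_filter] at hi
        rw [hBfdef, if_neg]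
        intro hiI
        rw [hIdef, mem_filter] at hiI
        exact hi.2 hiI.2
      rw [e1]
      refine Nat.pow_le_pow_right (by omega) ?_
      exact (Finset.card_filter_le _ _).trans hBadle
  have hfin : (2 ^ L) ^ (WW L / T) ≤ (2 * bP T l + 1) ^ bI * (2 * NB T l + 1) ^ (WW L / 16) *
      ((2 * (K₀ ^ (yy L ^ 2) * (RR l + 1)) + 1) ^ 2) ^ DD L *
      (VV L + 2) ^ (l * yy L * DD L) := by
    refine (Nat.pow_le_pow_right hpow hIcard).trans (hcount.trans ?_)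
    refine Nat.mul_le_mul (Nat.mul_le_mul_right _ hprod) ?_
    exact Nat.pow_le_pow_right (by omega) (Nat.mul_le_mul_right _ (Nat.mul_le_mul_right _ (by omega)))
  have hfin2 := h10 bI hbI16
  omega

open Classical in
theorem core (A : Set ℕ) {K : ℕ} (hA : Good A K) (θ ε : ℕ → ℤ)
    (hθ : Th θ) (hε1 : ∀ p, |ε p| ≤ 1)
    (lam : ℝ) (hlam : 3 / 2 ≤ lam) (K₀ : ℕ)
    (hD : ∀ y : ℕ, 2 ≤ y → Nonempty (Dyn lam (aR A ε θ y) ((K₀ : ℝ) ^ (y ^ 2))))
    (s₀ : ℕ) (hs₀ : s₀ ∣ K.factorial) (e₀ : ℤ) (he₀ : |e₀| = 1) (A₀ : Set ℕ)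
    (hA₀ : ∀ p ∈ A₀, p.Prime ∧ K < p ∧ s₀ * p ∈ A ∧ (∀ s, s ∣ s₀ → s ≠ s₀ → s * p ∉ A) ∧
      ε (s₀ * p) = e₀)
    (hns : ¬ Summable (fun p : ℕ => if p ∈ A₀ then 1 / (p : ℝ) else 0)) : False := by
  obtain ⟨T, hT⟩ : ∃ T, T = 4 * K.factorial := ⟨_, rfl⟩
  have hTpos : 0 < T := by
    rw [hT]
    exact Nat.mul_pos (by norm_num) (Nat.factorial_pos _)
  have hT4 : 4 ≤ T := by
    rw [hT]
    have := Nat.factorial_pos K
    omega
  have ht : Tendsto (fun l : ℕ => T * l) atTop atTop := by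
    refine tendsto_atTop_mono (fun l => ?_) tendsto_id
    exact Nat.le_mul_of_pos_left _ hTpos
  obtain ⟨L₀, hL₀⟩ := eventually_atTop.1 ((ht.eventually p1).and ((ht.eventually p2).and
    ((ht.eventually p3).and ((r4 hT4).and ((r5 hT4).and (p6.and
    (q6.and ((r7 hT4).and ((r8 hT4).and ((BP.r9 hT4).and ((r10 hT4 K₀).and
    ((s3 hT4).and (eventually_ge_atTop (2 * K))))))))))))))
  obtain ⟨l, hl, P, hP, hP2⟩ := many A₀ hns L₀
  obtain ⟨h1, h2, h3, h4, h5, h6, h6', h7, h8, h9, h10, h9', h11⟩ := hL₀ l hl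
  exact core_l A hA θ ε hθ hε1 lam hlam K₀ hD s₀ hs₀ e₀ he₀ l T h11 hT P hP
    (fun q hq => ⟨hA₀ q (hP2 q hq).1, (hP2 q hq).2⟩) h1 h2 h3 h4 h5 h6 h6' h7 h8 h9 h9' h10

end Pool.Agent.Helper51.BR
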