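import Pool.Agent.Helper9.Fib.IrrSet
import Pool.Agent.Helper51.BR.Core
import Pool.Agent.Helper51.BP.DynFib
import Pool.Agent.Helper51.BP.Final

/-!
# MP_175197_nt, project BR: the theorem for sets
-/

set_option autoImplicit false

open Finset Real

namespace Pool.Agent.Helper51.BR

open Pool.Agent.Helper9.Fib Pool.Agent.Helper9.PF
open Pool.Agent.Helper51.BP (sg th_sg dynFib phi_ge summable_fib not_dvd_fac)

/-- a prime power which is not a prime is `x ^ 2` or `x ^ 2 * x.minFac` -/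
lemma pow_form {n : ℕ} (hn : IsPrimePow n) (hnp : ¬ n.Prime) :
    ∃ x, 0 < x ∧ (n = x ^ 2 ∨ n = x ^ 2 * x.minFac) := by
  obtain ⟨p, k, hp, hk, rfl⟩ := (isPrimePow_nat_iff n).1 hn
  have hk2 : 2 ≤ k := by
    by_contra hcon
    have : k = 1 := by omega
    rw [this, pow_one] at hnp
    exact hnp hp
  refine ⟨p ^ (k / 2), pow_pos hp.pos _, ?_⟩
  rcases Nat.even_or_odd' k with ⟨i, hi | hi⟩
  · left
    rw [← pow_mul]
    congr 1
    omega
  · right
    have h1 : k / 2 = i := by omega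
    rw [h1, hp.pow_minFac (by omega), ← pow_mul, ← pow_succ]
    congr 1
    omega

open Classical in
/-- a good set whose reciprocals are not summable contains a class of primes (times a constant)
whose reciprocals are not summable -/
lemma exists_class {A : Set ℕ} {K : ℕ} (hA : Good A K)
    (hs : ¬ Summable (fun p : ℕ => if p ∈ A then 1 / (p : ℝ) else 0)) :
    ∃ s₀ : ℕ, s₀ ∣ K.factorial ∧ ∃ e₀ : ℤ, |e₀| = 1 ∧ ∃ A₀ : Set ℕ,
      (∀ p ∈ A₀, p.Prime ∧ K < p ∧ s₀ * p ∈ A ∧ (∀ s, s ∣ s₀ → s ≠ s₀ → s * p ∉ A) ∧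
        sg (s₀ * p) = e₀) ∧
      ¬ Summable (fun p : ℕ => if p ∈ A₀ then 1 / (p : ℝ) else 0) := by
  by_contra hcon
  push Not at hcon
  apply hs
  have hfac := Nat.factorial_pos K
  have e0 : ∀ p : ℕ, (0:ℝ) ≤ 1 / (p:ℝ) := fun p => by positivity
  have hnn : ∀ (c : Prop) (_ : Decidable c) (p : ℕ), (0:ℝ) ≤ if c then 1 / (p : ℝ) else 0 := by
    intro c _ p
    split_ifs
    · exact e0 p
    · exact le_rfl
  -- the primes
  obtain ⟨U, hU⟩ : ∃ U : Set ℕ, ∀ p, p ∈ U ↔ p.Prime ∧ K < p ∧ ∃ s, s ∣ K.factorial ∧ s * p ∈ A :=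
    ⟨{p | p.Prime ∧ K < p ∧ ∃ s, s ∣ K.factorial ∧ s * p ∈ A}, fun _ => Iff.rfl⟩
  obtain ⟨C, hC⟩ : ∃ C : ℕ → ℤ → Set ℕ, ∀ s e p, p ∈ C s e ↔ (p.Prime ∧ K < p ∧ s * p ∈ A ∧
      (∀ s', s' ∣ s → s' ≠ s → s' * p ∉ A) ∧ sg (s * p) = e) :=
    ⟨fun s e => {p | p.Prime ∧ K < p ∧ s * p ∈ A ∧
      (∀ s', s' ∣ s → s' ≠ s → s' * p ∉ A) ∧ sg (s * p) = e}, fun _ _ _ => Iff.rfl⟩
  have hCs : ∀ s ∈ K.factorial.divisors, Summable (fun p : ℕ =>
      (if p ∈ C s 1 then 1 / (p : ℝ) else 0) + (if p ∈ C s (-1) then 1 / (p : ℝ) else 0)) := by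
    intro s hs
    have h1 := hcon s (Nat.dvd_of_mem_divisors hs) 1 (by norm_num) (C s 1)
      (fun p hp => (hC s 1 p).1 hp)
    have h2 := hcon s (Nat.dvd_of_mem_divisors hs) (-1) (by norm_num) (C s (-1))
      (fun p hp => (hC s (-1) p).1 hp)
    exact h1.add h2
  have hUs : Summable (fun p : ℕ => if p ∈ U then 1 / (p : ℝ) else 0) := by
    refine Summable.of_nonneg_of_le (fun p => hnn _ _ p) ?_ (summable_sum hCs)
    intro p
    have hnn2 : ∀ s ∈ K.factorial.divisors, (0:ℝ) ≤ (if p ∈ C s 1 then 1 / (p : ℝ) else 0) +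
        (if p ∈ C s (-1) then 1 / (p : ℝ) else 0) := fun s _ =>
      add_nonneg (hnn _ _ p) (hnn _ _ p)
    by_cases hp : p ∈ U
    · rw [if_pos hp]
      obtain ⟨hpp, hKp, s, hs, hsA⟩ := (hU p).1 hp
      -- the least `s`
      have hex : ∃ s, s ∣ K.factorial ∧ s * p ∈ A := ⟨s, hs, hsA⟩
      obtain ⟨s₁, hs₁, hmin⟩ : ∃ s₁, (s₁ ∣ K.factorial ∧ s₁ * p ∈ A) ∧
          ∀ s' < s₁, ¬ (s' ∣ K.factorial ∧ s' * p ∈ A) :=
        ⟨Nat.find hex, Nat.find_spec hex, fun s' hs' => Nat.find_min hex hs'⟩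
      have hs₁pos : 0 < s₁ := Nat.pos_of_dvd_of_pos hs₁.1 hfac
      have hcl : ∀ s', s' ∣ s₁ → s' ≠ s₁ → s' * p ∉ A := by
        intro s' h1 h2 h3
        have h4 := Nat.le_of_dvd hs₁pos h1
        exact hmin s' (by omega) ⟨h1.trans hs₁.1, h3⟩
      have hmem : s₁ ∈ K.factorial.divisors := Nat.mem_divisors.2 ⟨hs₁.1, hfac.ne'⟩
      have h5 := Finset.single_le_sum hnn2 hmem
      refine le_trans ?_ h5
      have h6 : sg (s₁ * p) = 1 ∨ sg (s₁ * p) = -1 := by
        unfold sg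
        split_ifs
        · right; rfl
        · left; rfl
      rcases h6 with h6 | h6
      · have h7 : p ∈ C s₁ 1 := (hC _ _ _).2 ⟨hpp, hKp, hs₁.2, hcl, h6⟩
        rw [if_pos h7]
        have := hnn (p ∈ C s₁ (-1)) inferInstance p
        linarith
      · have h7 : p ∈ C s₁ (-1) := (hC _ _ _).2 ⟨hpp, hKp, hs₁.2, hcl, h6⟩
        rw [if_pos h7]
        have := hnn (p ∈ C s₁ 1) inferInstance p
        linarith
    · rw [if_neg hp]
      exact Finset.sum_nonneg hnn2
  -- members `s * p`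
  obtain ⟨C₁, hC₁⟩ : ∃ C₁ : Set ℕ, ∀ n, n ∈ C₁ ↔ n ∈ A ∧ ∃ p s, n = s * p ∧ s ∣ K.factorial ∧
      p.Prime ∧ K < p := ⟨{n | n ∈ A ∧ ∃ p s, n = s * p ∧ s ∣ K.factorial ∧
      p.Prime ∧ K < p}, fun _ => Iff.rfl⟩
  have hC₁s : Summable (fun n : ℕ => if n ∈ C₁ then 1 / (n : ℝ) else 0) := by
    have h1 : ∀ n ∈ C₁, ∃ p s, n = s * p ∧ s ∣ K.factorial ∧ p.Prime ∧ K < p :=
      fun n hn => ((hC₁ n).1 hn).2
    choose! g hg using h1
    refine summable_fib C₁ K.factorial.divisors.card g (fun p => if p ∈ U then 1 / (p : ℝ) else 0)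
      (fun p => hnn _ _ p) hUs ?_ ?_
    · intro n hn
      obtain ⟨s, h2, h3, h4, h5⟩ := hg n hn
      have h6 : g n ∈ U := (hU _).2 ⟨h4, h5, s, h3, h2 ▸ ((hC₁ n).1 hn).1⟩
      show 1 / (n : ℝ) ≤ if g n ∈ U then 1 / (g n : ℝ) else 0
      rw [if_pos h6]
      have h7 : g n ≤ n := by
        conv_rhs => rw [h2]
        exact Nat.le_mul_of_pos_left _ (Nat.pos_of_dvd_of_pos h3 hfac)
      have h8 : (0:ℝ) < (g n : ℝ) := by exact_mod_cast h4.pos
      exact one_div_le_one_div_of_le h8 (by exact_mod_cast h7)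
    · intro p S hS
      rcases S.eq_empty_or_nonempty with rfl | ⟨n₀, hn₀⟩
      · simp
      · have h2 := hS n₀ hn₀
        obtain ⟨s, h3, h4, h5, h6⟩ := hg n₀ h2.1
        rw [h2.2] at h5 h6
        refine (card_le_card (t := K.factorial.divisors.image fun s => s * p)
          fun n hn => ?_).trans card_image_le
        have h7 := hS n hn
        obtain ⟨s', h8, h9, h10, h11⟩ := hg n h7.1
        rw [mem_image]
        exact ⟨s', Nat.mem_divisors.2 ⟨h9, hfac.ne'⟩, by rw [h8, h7.2]⟩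
  -- members `s * m` with `m` composite
  obtain ⟨C₂, hC₂⟩ : ∃ C₂ : Set ℕ, ∀ n, n ∈ C₂ ↔ (n ∈ A ∧ ¬ Sp K n) ∧ ∃ m s, n = s * m ∧ s ∣ K.factorial ∧
      (∀ p : ℕ, p.Prime → p ∣ m → K < p) ∧ m ≠ 1 ∧ ¬ m.Prime :=
    ⟨{n | (n ∈ A ∧ ¬ Sp K n) ∧ ∃ m s, n = s * m ∧ s ∣ K.factorial ∧
      (∀ p : ℕ, p.Prime → p ∣ m → K < p) ∧ m ≠ 1 ∧ ¬ m.Prime}, fun _ => Iff.rfl⟩
  have hC₂s : Summable (fun n : ℕ => if n ∈ C₂ then 1 / (n : ℝ) else 0) := by
    have h1 : ∀ n ∈ C₂, ∃ m s, n = s * m ∧ s ∣ K.factorial ∧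
      (∀ p : ℕ, p.Prime → p ∣ m → K < p) ∧ m ≠ 1 ∧ ¬ m.Prime :=
      fun n hn => ((hC₂ n).1 hn).2
    choose! m hm using h1
    refine summable_fib C₂ K (fun n => (m n).minFac) (fun p => 1 / (p : ℝ) ^ 2)
      (fun p => by positivity) (Real.summable_one_div_nat_pow.2 one_lt_two) ?_ ?_
    · intro n hn
      obtain ⟨s, h2, h3, h4, h5, h6⟩ := hm n hn
      have hn0 : 0 < n := hA.pos n ((hC₂ n).1 hn).1.1
      have hm0 : 0 < m n := Nat.pos_of_ne_zero fun h => by
        rw [h, mul_zero] at h2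
        omega
      have h7 : (m n).minFac ^ 2 ≤ m n := Nat.minFac_sq_le_self hm0 h6
      have h8 : m n ≤ n := by
        conv_rhs => rw [h2]
        exact Nat.le_mul_of_pos_left _ (Nat.pos_of_dvd_of_pos h3 hfac)
      have h9 : 0 < (m n).minFac := (m n).minFac_pos
      have h10 : (0:ℝ) < ((m n).minFac : ℝ) ^ 2 := by positivity
      exact one_div_le_one_div_of_le h10 (by exact_mod_cast h7.trans h8)
    · intro p S hS
      rcases S.eq_empty_or_nonempty with rfl | ⟨n₀, hn₀⟩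
      · simp
      · have h2 := hS n₀ hn₀
        obtain ⟨s, h3, h4, h5, h6, h7⟩ := hm n₀ h2.1
        have h8 : (m n₀).minFac = p := h2.2
        have hpp : p.Prime := h8 ▸ Nat.minFac_prime h6
        have hKp : K < p := h5 p hpp (h8 ▸ Nat.minFac_dvd _)
        refine hA.mult p hpp hKp S fun n hn => ?_
        have h9 := hS n hn
        obtain ⟨s', h10, h11, h12, h13, h14⟩ := hm n h9.1
        refine ⟨((hC₂ n).1 h9.1).1.1, ?_, ((hC₂ n).1 h9.1).1.2⟩
        have h15 : (m n).minFac = p := h9.2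
        have h16 : p ∣ m n := h15 ▸ Nat.minFac_dvd _
        rw [h10]
        exact dvd_mul_of_dvd_right h16 _
  -- small multiples of the prime powers which are not primes
  obtain ⟨C₃, hC₃⟩ : ∃ C₃ : Set ℕ, ∀ n, n ∈ C₃ ↔ n ∈ A ∧ ∃ x s, 0 < x ∧ s ≤ K ∧
      (n = s * x ^ 2 ∨ n = s * (x ^ 2 * x.minFac)) :=
    ⟨{n | n ∈ A ∧ ∃ x s, 0 < x ∧ s ≤ K ∧
      (n = s * x ^ 2 ∨ n = s * (x ^ 2 * x.minFac))}, fun _ => Iff.rfl⟩
  have hC₃s : Summable (fun n : ℕ => if n ∈ C₃ then 1 / (n : ℝ) else 0) := by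
    have h1 : ∀ n ∈ C₃, ∃ x s, 0 < x ∧ s ≤ K ∧ (n = s * x ^ 2 ∨ n = s * (x ^ 2 * x.minFac)) :=
      fun n hn => ((hC₃ n).1 hn).2
    choose! g hg using h1
    refine summable_fib C₃ ((K + 1) + (K + 1)) g (fun p => 1 / (p : ℝ) ^ 2)
      (fun p => by positivity) (Real.summable_one_div_nat_pow.2 one_lt_two) ?_ ?_
    · intro n hn
      obtain ⟨s, h2, -, h3⟩ := hg n hn
      have hn0 : 0 < n := hA.pos n ((hC₃ n).1 hn).1
      have hs0 : 0 < s := Nat.pos_of_ne_zero fun h => by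
        rcases h3 with h3 | h3
        · rw [h, zero_mul] at h3
          omega
        · rw [h, zero_mul] at h3
          omega
      have h4 : g n ^ 2 ≤ n := by
        rcases h3 with h3 | h3
        · conv_rhs => rw [h3]
          exact Nat.le_mul_of_pos_left _ hs0
        · conv_rhs => rw [h3]
          exact (Nat.le_mul_of_pos_right _ (Nat.minFac_pos _)).trans
            (Nat.le_mul_of_pos_left _ hs0)
      have h5 : (0:ℝ) < (g n : ℝ) ^ 2 := by positivity
      exact one_div_le_one_div_of_le h5 (by exact_mod_cast h4)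
    · intro x S hS
      refine (card_le_card (t := (range (K + 1)).image (fun s => s * x ^ 2) ∪
        (range (K + 1)).image (fun s => s * (x ^ 2 * x.minFac))) fun n hn => ?_).trans
        ((card_union_le _ _).trans (Nat.add_le_add (card_image_le.trans (card_range _).le)
          (card_image_le.trans (card_range _).le)))
      have h2 := hS n hn
      obtain ⟨s, -, hs, h3⟩ := hg n h2.1
      rw [h2.2] at h3
      rw [mem_union, mem_image, mem_image]
      rcases h3 with h3 | h3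
      · exact Or.inl ⟨s, mem_range.2 (by omega), h3.symm⟩
      · exact Or.inr ⟨s, mem_range.2 (by omega), h3.symm⟩
  -- the others
  have hF : Summable (fun n : ℕ => if n ∈ Set.Iic (K.factorial + K * K) then 1 / (n : ℝ)
      else 0) := by
    refine summable_of_hasFiniteSupport ?_
    refine (Set.finite_Iic (K.factorial + K * K)).subset ?_
    intro p hp
    rw [Function.mem_support] at hp
    by_contra h
    exact hp (if_neg h)
  refine Summable.of_nonneg_of_le (fun p => hnn _ _ p) ?_ (((hC₁s.add hC₂s).add hC₃s).add hF)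
  intro n
  have a1 := hnn (n ∈ C₁) inferInstance n
  have a2 := hnn (n ∈ C₂) inferInstance n
  have a4 := hnn (n ∈ C₃) inferInstance n
  have a3 := hnn (n ∈ Set.Iic (K.factorial + K * K)) inferInstance n
  by_cases hn : n ∈ A
  · rw [if_pos hn]
    by_cases hpp : Sp K n
    · obtain ⟨s, m, hs, hm, hsm⟩ := hpp
      have hn0 : 0 < n := hA.pos n hn
      have hs0 : 0 < s := Nat.pos_of_ne_zero fun h => by
        rw [hsm, h, zero_mul] at hn0
        exact lt_irrefl _ hn0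
      by_cases hp : m.Prime
      · by_cases hKn : K < m
        · have h4 : n ∈ C₁ := (hC₁ n).2 ⟨hn, m, s, hsm, Nat.dvd_factorial hs0 hs, hp, hKn⟩
          rw [if_pos h4]
          linarith
        · have h4 : n ∈ Set.Iic (K.factorial + K * K) := by
            rw [Set.mem_Iic, hsm]
            have h5 : s * m ≤ K * K := Nat.mul_le_mul hs (by omega)
            omega
          rw [if_pos h4]
          linarith
      · obtain ⟨x, hx, hxm⟩ := pow_form hm hp
        have h4 : n ∈ C₃ := (hC₃ n).2 ⟨hn, x, s, hx, hs, by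
          rcases hxm with h | h
          · left
            rw [hsm, h]
          · right
            rw [hsm]
            exact congrArg (fun t => s * t) h⟩
        rw [if_pos h4]
        linarith
    obtain ⟨s, m, h1, h2, h3⟩ := hA.split n hn hpp
    by_cases hm1 : m = 1
    · have h4 : n ∈ Set.Iic (K.factorial + K * K) := by
        rw [Set.mem_Iic, h1, hm1, mul_one]
        exact (Nat.le_of_dvd hfac h2).trans (Nat.le_add_right _ _)
      rw [if_pos h4]
      linarith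
    · by_cases hmp : m.Prime
      · have h4 : n ∈ C₁ := (hC₁ n).2 ⟨hn, m, s, h1, h2, hmp, h3 m hmp dvd_rfl⟩
        rw [if_pos h4]
        linarith
      · have h4 : n ∈ C₂ := (hC₂ n).2 ⟨⟨hn, hpp⟩, m, s, h1, h2, h3, hm1, hmp⟩
        rw [if_pos h4]
        linarith
  · rw [if_neg hn]
    linarith

open Classical in
/-- the theorem for good sets -/
theorem irrational_good {A : Set ℕ} {K : ℕ} (hA : Good A K)
    (hs : ¬ Summable (fun p : ℕ => if p ∈ A then 1 / (p : ℝ) else 0)) :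
    Irrational (∑' n : ℕ, if n ∈ A then 1 / (Nat.fib n : ℝ) else 0) := by
  by_contra hirr
  obtain ⟨K₀, hK₀⟩ := dynFib A hA.pos hirr
  obtain ⟨s₀, hs₀, e₀, he₀, A₀, hA₀, hns⟩ := exists_class hA hs
  exact core A hA sg sg th_sg (fun p => (th_sg.one p).le) Real.goldenRatio phi_ge K₀ hK₀
    s₀ hs₀ e₀ he₀ A₀ hA₀ hns

open Classical in
/-- If every prime power `> K` divides at most `K` of those members of the infinite set `A` of
positive integers which are not of the form `s * m`, `s ≤ K`, `m` a prime power, then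
`∑_{n ∈ A} 1 / F_n` is irrational. -/
theorem irrational_pow (A : Set ℕ) (h0 : 0 ∉ A) (hinf : A.Infinite) (K : ℕ) (hK2 : 2 ≤ K)
    (hA : ∀ q : ℕ, IsPrimePow q → K < q → ∀ S : Finset ℕ,
      (∀ n ∈ S, n ∈ A ∧ q ∣ n ∧ ¬ Sp K n) → S.card ≤ K) :
    Irrational (∑' n : ℕ, if n ∈ A then 1 / (Nat.fib n : ℝ) else 0) := by
  by_cases hs : Summable (fun p : ℕ => if p ∈ A then 1 / (p : ℝ) else 0)
  · refine irrational_set A h0 hinf ?_
    refine hs.congr fun p => ?_
    unfold wA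
    rfl
  -- the exceptional members
  obtain ⟨E, hE⟩ : ∃ E : Set ℕ, ∀ n, n ∈ E ↔ (n ∈ A ∧ ¬ Sp K n) ∧
      ∃ r e, r.Prime ∧ r ≤ K ∧ K < r ^ e ∧ r ^ e ∣ n :=
    ⟨{n | (n ∈ A ∧ ¬ Sp K n) ∧ ∃ r e, r.Prime ∧ r ≤ K ∧ K < r ^ e ∧ r ^ e ∣ n},
      fun _ => Iff.rfl⟩
  have hEfin : E.Finite := by
    have h1 : E ⊆ ⋃ r ∈ Finset.range (K + 1), {n | (n ∈ A ∧ ¬ Sp K n) ∧ r.Prime ∧
        r ^ (Nat.log r K + 1) ∣ n} := by
      intro n hn
      obtain ⟨h2, r, e, h3, h4, h5, h6⟩ := (hE n).1 hn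
      rw [Set.mem_iUnion₂]
      refine ⟨r, Finset.mem_range.2 (by omega), h2, h3, ?_⟩
      refine (pow_dvd_pow r ?_).trans h6
      have h7 := (Nat.log_lt_iff_lt_pow h3.one_lt (by omega : K ≠ 0)).2 h5
      omega
    refine Set.Finite.subset (Set.Finite.biUnion (Finset.finite_toSet _) fun r _ => ?_) h1
    by_cases hr : r.Prime
    · by_contra hcon
      obtain ⟨S, hS1, hS2⟩ := Set.Infinite.exists_subset_card_eq hcon (K + 1)
      have h3 : K < r ^ (Nat.log r K + 1) := Nat.lt_pow_succ_log_self hr.one_lt K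
      have := hA (r ^ (Nat.log r K + 1)) (hr.isPrimePow.pow (by omega)) h3 S fun n hn => by
        have h4 := hS1 hn
        exact ⟨h4.1.1, h4.2.2, h4.1.2⟩
      omega
    · refine Set.Finite.subset Set.finite_empty ?_
      intro n hn
      exact absurd hn.2.1 hr
  obtain ⟨A', hA'⟩ : ∃ A' : Set ℕ, ∀ n, n ∈ A' ↔ n ∈ A ∧ n ∉ E :=
    ⟨{n | n ∈ A ∧ n ∉ E}, fun _ => Iff.rfl⟩
  have hgood : Good A' K := by
    refine ⟨hK2, ?_, ?_, ?_⟩
    · intro n hn
      exact Nat.pos_of_ne_zero fun h => h0 (h ▸ ((hA' n).1 hn).1)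
    · intro p hp hKp S hS
      exact hA p hp.isPrimePow hKp S fun n hn => ⟨((hA' n).1 (hS n hn).1).1, (hS n hn).2⟩
    · intro n hn hnpp
      obtain ⟨hnA, hnE⟩ := (hA' n).1 hn
      have hn0 : n ≠ 0 := fun h => h0 (h ▸ hnA)
      obtain ⟨m, hm⟩ : n.gcd K.factorial ∣ n := Nat.gcd_dvd_left _ _
      refine ⟨n.gcd K.factorial, m, hm, Nat.gcd_dvd_right _ _, ?_⟩
      intro p hp hpm
      by_contra hcon
      push Not at hcon
      have h1 : p ^ n.factorization p ∣ n := Nat.ordProj_dvd n p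
      have h2 : p ^ n.factorization p ≤ K := by
        by_contra h3
        push Not at h3
        exact hnE ((hE n).2 ⟨⟨hnA, hnpp⟩, p, _, hp, hcon, h3, h1⟩)
      have h3 : p ^ n.factorization p ∣ K.factorial :=
        Nat.dvd_factorial (pow_pos hp.pos _) h2
      have h4 : p ^ n.factorization p ∣ n.gcd K.factorial := Nat.dvd_gcd h1 h3
      have h5 : p ^ (n.factorization p + 1) ∣ n := by
        rw [pow_succ]
        conv_rhs => rw [hm]
        exact mul_dvd_mul h4 hpm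
      exact Nat.pow_succ_factorization_not_dvd hn0 hp h5
  have hnn : ∀ (c : Prop) (_ : Decidable c) (p : ℕ), (0:ℝ) ≤ if c then 1 / (p : ℝ) else 0 := by
    intro c _ p
    split_ifs
    · positivity
    · exact le_rfl
  have hns' : ¬ Summable (fun p : ℕ => if p ∈ A' then 1 / (p : ℝ) else 0) := by
    intro hsum
    apply hs
    have h2 : Summable (fun n : ℕ => if n ∈ E then 1 / (n : ℝ) else 0) := by
      refine summable_of_hasFiniteSupport ?_
      refine hEfin.subset ?_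
      intro p hp
      rw [Function.mem_support] at hp
      by_contra h
      exact hp (if_neg h)
    refine Summable.of_nonneg_of_le (fun p => hnn _ _ p) ?_ (hsum.add h2)
    intro n
    have a1 := hnn (n ∈ A') inferInstance n
    have a3 := hnn (n ∈ E) inferInstance n
    by_cases hn : n ∈ A
    · rw [if_pos hn]
      by_cases hE' : n ∈ E
      · rw [if_pos hE']
        linarith
      · rw [if_pos ((hA' n).2 ⟨hn, hE'⟩)]
        linarith
    · rw [if_neg hn]
      linarith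
  have hirr := irrational_good hgood hns'
  -- the exceptional members give a rational number
  have hEsum : (∑' n : ℕ, if n ∈ E then 1 / (Nat.fib n : ℝ) else 0) =
      ((∑ n ∈ hEfin.toFinset, 1 / (Nat.fib n : ℚ) : ℚ) : ℝ) := by
    rw [tsum_eq_sum (s := hEfin.toFinset)]
    · push_cast
      refine Finset.sum_congr rfl fun n hn => ?_
      rw [if_pos (hEfin.mem_toFinset.1 hn)]
    · intro n hn
      rw [if_neg]
      exact fun h => hn (hEfin.mem_toFinset.2 h)
  have hsE : Summable (fun n : ℕ => if n ∈ E then 1 / (Nat.fib n : ℝ) else 0) := by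
    refine summable_of_hasFiniteSupport ?_
    refine hEfin.subset ?_
    intro p hp
    rw [Function.mem_support] at hp
    by_contra h
    exact hp (if_neg h)
  have hsA' : Summable (fun n : ℕ => if n ∈ A' then 1 / (Nat.fib n : ℝ) else 0) := by
    by_contra hcon
    rw [tsum_eq_zero_of_not_summable hcon] at hirr
    exact hirr ⟨0, by norm_num⟩
  have hsplit : (∑' n : ℕ, if n ∈ A then 1 / (Nat.fib n : ℝ) else 0) =
      (∑' n : ℕ, if n ∈ A' then 1 / (Nat.fib n : ℝ) else 0) +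
      ((∑ n ∈ hEfin.toFinset, 1 / (Nat.fib n : ℚ) : ℚ) : ℝ) := by
    rw [← hEsum, ← hsA'.tsum_add hsE]
    refine tsum_congr fun n => ?_
    by_cases h2 : n ∈ A
    · by_cases h3 : n ∈ E
      · have h4 : n ∉ A' := fun h => ((hA' n).1 h).2 h3
        rw [if_pos h2, if_neg h4, if_pos h3, zero_add]
      · rw [if_pos h2, if_pos ((hA' n).2 ⟨h2, h3⟩), if_neg h3, add_zero]
    · rw [if_neg h2, if_neg (fun h => h2 ((hA' n).1 h).1), if_neg (fun h => h2 ((hE n).1 h).1.1),
        add_zero]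
  rw [hsplit]
  exact hirr.add_ratCast _

end Pool.Agent.Helper51.BR
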