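import Pool.Agent.Helper51.BR.Code
import Pool.Agent.Helper51.BP.Unique

/-!
# MP_175197_nt, project BR: uniqueness

As `Helper51/BP/Unique.lean`.
-/

set_option autoImplicit false

namespace Pool.Agent.Helper51.BR

open Finset
open Pool.Agent.Helper9.PF
open Pool.Agent.Helper51.BP (Th FR aR)

/-- the values at the places `(N + i) / d` -/
private theorem un_place {A : Set ℕ} {ε θ : ℕ → ℤ} {K y Rm : ℕ} (hθ : Th θ) {Q a N N' d i : ℕ}
    (hQ : ∀ p : ℕ, p.Prime → p ∣ Q → K < p ∧ p ≤ y) (hQodd : Odd Q) (hR4 : 4 ∣ Rm) (hd : d ∣ Q)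
    (hN1 : 1 ≤ N) (hN1' : 1 ≤ N') (hN : N ≡ a [MOD Rm * Q]) (hN' : N' ≡ a [MOD Rm * Q])
    (hdi : d ∣ N + i) (hdi' : d ∣ N' + i)
    (hg : gR A ε K y ((N + i) / d) = gR A ε K y ((N' + i) / d)) :
    aR A ε θ y ((N + i) / d) - aR A ε θ y ((N' + i) / d) =
        θ ((N + i) / d) * (fR A ε K y (N + i) - fR A ε K y (N' + i)) := by
  obtain ⟨M, hM⟩ := hdi
  obtain ⟨M', hM'⟩ := hdi'
  have hdodd : Odd d := Odd.of_dvd_nat hQodd hd
  have hd0 : 0 < d := hdodd.pos
  have e1 : (N + i) / d = M := by rw [hM, Nat.mul_div_cancel_left _ hd0]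
  have e2 : (N' + i) / d = M' := by rw [hM', Nat.mul_div_cancel_left _ hd0]
  rw [e1, e2] at hg
  rw [e1, e2]
  have hM0 : M ≠ 0 := by
    rintro rfl
    omega
  have hM0' : M' ≠ 0 := by
    rintro rfl
    omega
  have h4 : N ≡ a [MOD 4] := hN.of_dvd (hR4.mul_right Q)
  have h4' : N' ≡ a [MOD 4] := hN'.of_dvd (hR4.mul_right Q)
  have h5 : d * M ≡ d * M' [MOD 4] := by
    rw [← hM, ← hM']
    exact (h4.trans h4'.symm).add_right i
  have h6 : Nat.gcd 4 d = 1 := by
    have h7 : Nat.Coprime (2 ^ 2) d := Nat.Coprime.pow_left 2 (Nat.coprime_two_left.2 hdodd)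
    exact h7
  have t3 : θ M = θ M' := hθ.per _ _ (Nat.ModEq.cancel_left_of_coprime h6 h5)
  have hpd : ∀ p : ℕ, p.Prime → p ∣ d → K < p ∧ p ≤ y := fun p hp hpd => hQ p hp (hpd.trans hd)
  have f1 : fR A ε K y M = fR A ε K y (N + i) := by
    rw [hM, fR_mul A ε K y hpd hdodd hM0]
  have f2 : fR A ε K y M' = fR A ε K y (N' + i) := by
    rw [hM', fR_mul A ε K y hpd hdodd hM0']
  unfold aR
  rw [FR_eq A ε K, FR_eq A ε K, ← t3, f1, f2, hg]
  ring

private theorem un_mu {Q d g X i i' : ℕ} (hg : d ≤ g) (hgQ : g ≤ Q) (hi : i' ≤ X)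
    (h : d < g ∨ i' < i) : (Q - g) * (X + 1) + i' < (Q - d) * (X + 1) + i := by
  rcases h with h | h
  · have h1 : (Q - g) * (X + 1) + (X + 1) ≤ (Q - d) * (X + 1) := by
      rw [← Nat.succ_mul]
      exact Nat.mul_le_mul_right _ (by omega)
    omega
  · have h1 : (Q - g) * (X + 1) ≤ (Q - d) * (X + 1) := Nat.mul_le_mul_right _ (by omega)
    omega

/-- backward estimate for a perturbed expansion -/
private theorem back {lam b : ℝ} (hlam : 3 / 2 ≤ lam) (hb : 0 ≤ b) {Δ e : ℕ → ℝ} {H : ℕ}
    (hstep : ∀ k < H, Δ (k + 1) = lam * Δ k + e k) (he : ∀ k < H, |e k| ≤ b) :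
    ∀ k ≤ H, lam ^ k * (|Δ 0| - 2 * b) + 2 * b ≤ |Δ k| := by
  intro k
  induction k with
  | zero =>
    intro _
    rw [pow_zero]
    linarith
  | succ k ih =>
    intro hk
    have h1 := ih (by omega)
    have h2 := hstep k (by omega)
    have h3 := he k (by omega)
    have h4 : lam * |Δ k| - b ≤ |Δ (k + 1)| := by
      rw [h2]
      have h5 := abs_sub_abs_le_abs_sub (lam * Δ k) (-(e k))
      rw [sub_neg_eq_add, abs_neg, abs_mul, abs_of_nonneg (by linarith : (0:ℝ) ≤ lam)] at h5
      linarith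
    have h5 : lam * (lam ^ k * (|Δ 0| - 2 * b) + 2 * b) ≤ lam * |Δ k| :=
      mul_le_mul_of_nonneg_left h1 (by linarith)
    have h6 : lam ^ (k + 1) = lam * lam ^ k := by ring
    rw [h6]
    nlinarith

theorem unique {lam Kd : ℝ} (hlam : 3 / 2 ≤ lam) {A : Set ℕ} {ε θ : ℕ → ℤ} {K y Rm : ℕ}
    (hθ : Th θ) (dyn : Dyn lam (aR A ε θ y) Kd) {Q D G E W V H a B : ℕ} {Rc ρ : ℝ}
    (hQ : ∀ p : ℕ, p.Prime → p ∣ Q → K < p ∧ p ≤ y) (hQ0 : 0 < Q) (hQodd : Odd Q) (hR4 : 4 ∣ Rm)
    (hG : 4 * (B : ℝ) + 2 * ρ < lam ^ G) (hRc : Rc ≤ ρ * lam ^ H) (hV : E + W + H * D ≤ V)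
    {N N' : ℕ} (hN1 : 1 ≤ N) (hN1' : 1 ≤ N')
    (hN : N ≡ a [MOD Rm * Q]) (hN' : N' ≡ a [MOD Rm * Q])
    (hR : ∀ i d, i ≤ V → 0 < d → d ∣ Q → d ≤ D → d ∣ N + i →
      bet lam (aR A ε θ y) ((N + i) / d) ≤ Rc)
    (hR' : ∀ i d, i ≤ V → 0 < d → d ∣ Q → d ≤ D → d ∣ N' + i →
      bet lam (aR A ε θ y) ((N' + i) / d) ≤ Rc)
    (hB : ∀ i ≤ V, |fR A ε K y (N + i)| ≤ (B : ℤ)) (hB' : ∀ i ≤ V, |fR A ε K y (N' + i)| ≤ (B : ℤ))
    (hg : ∀ i d, i ≤ V → 0 < d → d ∣ Q → d ≤ D → d ∣ N + i → d ∣ N' + i →
      gR A ε K y ((N + i) / d) = gR A ε K y ((N' + i) / d))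
    (h0 : ∀ d, 0 < d → d ∣ Q → d ≤ D →
      dyn.w ((N + i0 a E d) / d - 1) = dyn.w ((N' + i0 a E d) / d - 1))
    (hbad : ∀ i ∈ Bad Q D G E W a, fR A ε K y (N + i) = fR A ε K y (N' + i)) :
    ∀ i, E < i → i ≤ E + W → fR A ε K y (N + i) = fR A ε K y (N' + i) := by
  have hdiv : ∀ d i, d ∣ Q → (d ∣ N + i ↔ d ∣ a + i) := by
    intro d i hd
    have h1 : N + i ≡ a + i [MOD d] := (hN.of_dvd (hd.trans (Dvd.intro_left _ rfl))).add_right i
    exact h1.dvd_iff (dvd_refl d)
  have hdiv' : ∀ d i, d ∣ Q → (d ∣ N' + i ↔ d ∣ a + i) := by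
    intro d i hd
    have h1 : N' + i ≡ a + i [MOD d] := (hN'.of_dvd (hd.trans (Dvd.intro_left _ rfl))).add_right i
    exact h1.dvd_iff (dvd_refl d)
  have main : ∀ n i, (Q - (a + i).gcd Q) * (E + W + 1) + i = n → E < i → i ≤ E + W →
      fR A ε K y (N + i) = fR A ε K y (N' + i) := by
    intro n
    induction n using Nat.strong_induction_on with
    | _ n ih =>
      intro i hn hi1 hi2
      by_cases hib : i ∈ Bad Q D G E W a
      · exact hbad i hib
      have hgood : ¬ IsBad Q D G E W a i := by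
        intro h1
        apply hib
        unfold Bad
        simp only [Finset.mem_filter, Finset.mem_Ioc]
        exact ⟨⟨hi1, hi2⟩, h1⟩
      unfold IsBad at hgood
      push Not at hgood
      obtain ⟨hgD, hgj, hgW⟩ := hgood
      set d := (a + i).gcd Q with hd
      have hd0 : 0 < d := Nat.gcd_pos_of_pos_right _ hQ0
      have hdQ : d ∣ Q := Nat.gcd_dvd_right _ _
      have hda : d ∣ a + i := Nat.gcd_dvd_left _ _
      -- the places which precede
      have hprec : ∀ i', E < i' → i' ≤ E + W → d ∣ a + i' → (d < (a + i').gcd Q ∨ i' < i) →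
          fR A ε K y (N + i') = fR A ε K y (N' + i') := by
        intro i' h1 h2 h3 h4
        have h6 : d ∣ (a + i').gcd Q := Nat.dvd_gcd h3 hdQ
        have h7 : d ≤ (a + i').gcd Q := Nat.le_of_dvd (Nat.gcd_pos_of_pos_right _ hQ0) h6
        have h8 : (a + i').gcd Q ≤ Q := Nat.le_of_dvd hQ0 (Nat.gcd_dvd_right _ _)
        exact ih _ (hn ▸ un_mu h7 h8 h2 h4) i' rfl h1 h2
      -- the comparison at the places of the chain
      have hcmp : ∀ i', i' ≤ V → d ∣ a + i' →
          aR A ε θ y ((N + i') / d) - aR A ε θ y ((N' + i') / d) =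
            θ ((N + i') / d) * (fR A ε K y (N + i') - fR A ε K y (N' + i')) := by
        intro i' h1 h2
        have h3 := (hdiv d i' hdQ).2 h2
        have h4 := (hdiv' d i' hdQ).2 h2
        exact un_place hθ hQ hQodd hR4 hdQ hN1 hN1' hN hN' h3 h4 (hg i' d h1 hd0 hdQ hgD h3 h4)
      have hEWV : E + W ≤ V := le_trans (Nat.le_add_right _ _) hV
      have hpl : ∀ i', E < i' → i' ≤ E + W → d ∣ a + i' → (d < (a + i').gcd Q ∨ i' < i) →
          aR A ε θ y ((N + i') / d) = aR A ε θ y ((N' + i') / d) := by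
        intro i' h1 h2 h3 h4
        have h8 := hcmp i' (h2.trans hEWV) h3
        rw [hprec i' h1 h2 h3 h4, sub_self, mul_zero] at h8
        linarith
      -- (1) the chain before `i`
      have hi0a := i0_gt a E hd0
      have hi0d := i0_dvd a E hd0
      have hi0i := i0_min a E hi1 hda
      have hdivN : ∀ i', d ∣ a + i' → 1 ≤ (N + i') / d := by
        intro i' h1
        rw [Nat.one_le_div_iff hd0]
        exact Nat.le_of_dvd (by omega) ((hdiv d i' hdQ).2 h1)
      have hdivN' : ∀ i', d ∣ a + i' → 1 ≤ (N' + i') / d := by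
        intro i' h1
        rw [Nat.one_le_div_iff hd0]
        exact Nat.le_of_dvd (by omega) ((hdiv' d i' hdQ).2 h1)
      have hshift : ∀ X i' k : ℕ, (X + (i' + k * d)) / d = (X + i') / d + k := by
        intro X i' k
        rw [← add_assoc, Nat.add_mul_div_right _ _ hd0]
      have hchain : ∀ t : ℕ, i0 a E d + t * d ≤ i →
          dyn.w ((N + (i0 a E d + t * d)) / d - 1) = dyn.w ((N' + (i0 a E d + t * d)) / d - 1) := by
        intro t
        induction t with
        | zero =>
          intro _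
          rw [zero_mul, add_zero]
          exact h0 d hd0 hdQ hgD
        | succ t iht =>
          intro ht
          have e1 : i0 a E d + (t + 1) * d = (i0 a E d + t * d) + 1 * d := by ring
          have hlt : i0 a E d + t * d < i := by
            rw [e1] at ht
            omega
          have h1 := iht hlt.le
          have hdt : d ∣ a + (i0 a E d + t * d) := by
            rw [← add_assoc]
            exact dvd_add hi0d (Dvd.intro_left _ rfl)
          have h2 := hpl (i0 a E d + t * d) (by omega) (by omega) hdt (Or.inr hlt)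
          rw [e1, hshift N (i0 a E d + t * d) 1, hshift N' (i0 a E d + t * d) 1, Nat.add_sub_cancel,
            Nat.add_sub_cancel]
          have h3 := hdivN _ hdt
          have h4 := hdivN' _ hdt
          have h5 := dyn.step ((N + (i0 a E d + t * d)) / d - 1)
          have h6 := dyn.step ((N' + (i0 a E d + t * d)) / d - 1)
          rw [Nat.sub_add_cancel h3] at h5
          rw [Nat.sub_add_cancel h4] at h6
          rw [h5, h6, h1, h2]
      obtain ⟨t, ht⟩ : ∃ t, i = i0 a E d + t * d := by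
        have h1 : d ∣ (a + i) - (a + i0 a E d) := Nat.dvd_sub hda hi0d
        obtain ⟨t, ht⟩ := h1
        refine ⟨t, ?_⟩
        rw [mul_comm t d, ← ht]
        omega
      have hw0 : dyn.w ((N + i) / d - 1) = dyn.w ((N' + i) / d - 1) := by
        have h1 := hchain t ht.ge
        rw [← ht] at h1
        exact h1
      have u4 := hcmp i (hi2.trans hEWV) hda
      set M := (N + i) / d with hM
      set M' := (N' + i) / d with hM'
      have hM1 : 1 ≤ M := hdivN i hda
      have hM1' : 1 ≤ M' := hdivN' i hda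
      have hGd : i + G * d ≤ E + W := le_trans (Nat.add_le_add_left (Nat.mul_le_mul_left G hgD) i) hgW
      have hdiff : ∀ k : ℕ, k ≤ G → dyn.R (dyn.w (M + k)) - dyn.R (dyn.w (M' + k)) =
          lam ^ k * (dyn.c * ((aR A ε θ y M : ℝ) - (aR A ε θ y M' : ℝ))) := by
        intro k
        induction k with
        | zero =>
          intro _
          have h5 := dyn.Rstep (M - 1)
          have h6 := dyn.Rstep (M' - 1)
          rw [Nat.sub_add_cancel hM1] at h5
          rw [Nat.sub_add_cancel hM1'] at h6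
          rw [add_zero, add_zero, h5, h6, hw0]
          ring
        | succ k ihk =>
          intro hk
          have h1 := ihk (by omega)
          have h5 := dyn.Rstep (M + k)
          have h6 := dyn.Rstep (M' + k)
          have hkG : (k + 1) * d ≤ G * d := Nat.mul_le_mul_right d hk
          have hdk : d ∣ a + (i + (k + 1) * d) := by
            rw [← add_assoc]
            exact dvd_add hda (Dvd.intro_left _ rfl)
          have hgne : (a + (i + (k + 1) * d)).gcd Q ≠ d := by
            have h7 := hgj (k + 1) (by omega) hk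
            rw [← add_assoc]
            exact h7
          have hglt : d < (a + (i + (k + 1) * d)).gcd Q := by
            have h8 : d ≤ (a + (i + (k + 1) * d)).gcd Q :=
              Nat.le_of_dvd (Nat.gcd_pos_of_pos_right _ hQ0) (Nat.dvd_gcd hdk hdQ)
            omega
          have h2 := hpl (i + (k + 1) * d) (by omega) (by omega) hdk (Or.inl hglt)
          rw [hshift, hshift] at h2
          have h3 : M + (k + 1) = M + k + 1 := by ring
          have h4 : M' + (k + 1) = M' + k + 1 := by ring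
          rw [← hM, ← hM', h3, h4] at h2
          rw [h3, h4, h5, h6, h2]
          have h9 : lam * dyn.R (dyn.w (M + k)) + dyn.c * (aR A ε θ y (M' + k + 1) : ℝ) -
              (lam * dyn.R (dyn.w (M' + k)) + dyn.c * (aR A ε θ y (M' + k + 1) : ℝ)) =
              lam * (dyn.R (dyn.w (M + k)) - dyn.R (dyn.w (M' + k))) := by ring
          rw [h9, h1]
          ring
      have hG1 := hdiff G le_rfl
      have hc0 : 0 < |dyn.c| := abs_pos.2 dyn.c_ne
      -- `H` steps more
      have hHd : ∀ k ≤ H, i + (G + k) * d ≤ V := by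
        intro k hk
        have h1 : (G + k) * d = G * d + k * d := by ring
        have h2 : k * d ≤ H * D := Nat.mul_le_mul hk hgD
        omega
      have hdvd : ∀ k, d ∣ a + (i + k * d) := by
        intro k
        rw [← add_assoc]
        exact dvd_add hda (Dvd.intro_left _ rfl)
      have hbk := back (lam := lam) (b := |dyn.c| * (2 * B)) hlam (by positivity)
        (Δ := fun k => dyn.R (dyn.w (M + G + k)) - dyn.R (dyn.w (M' + G + k)))
        (e := fun k => dyn.c * ((aR A ε θ y (M + G + k + 1) : ℝ) - (aR A ε θ y (M' + G + k + 1) : ℝ)))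
        (H := H) (by
          intro k _
          have h5 := dyn.Rstep (M + G + k)
          have h6 := dyn.Rstep (M' + G + k)
          rw [← add_assoc, ← add_assoc, h5, h6]
          ring) (by
          intro k hk
          rw [abs_mul]
          refine mul_le_mul_of_nonneg_left ?_ hc0.le
          have h1 := hHd (k + 1) hk
          have h2 := hcmp (i + (G + (k + 1)) * d) h1 (hdvd _)
          rw [hshift, hshift, ← hM, ← hM'] at h2
          have h3 : M + (G + (k + 1)) = M + G + k + 1 := by ring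
          have h4 : M' + (G + (k + 1)) = M' + G + k + 1 := by ring
          rw [h3, h4] at h2
          have h5 : |aR A ε θ y (M + G + k + 1) - aR A ε θ y (M' + G + k + 1)| ≤ 2 * (B : ℤ) := by
            rw [h2, abs_mul]
            have h6 := (hθ.one (M + G + k + 1)).le
            have h7 := hB _ h1
            have h8 := hB' _ h1
            have h9 : |fR A ε K y (N + (i + (G + (k + 1)) * d)) -
                fR A ε K y (N' + (i + (G + (k + 1)) * d))| ≤ 2 * (B : ℤ) := by
              rw [abs_le] at h7 h8 ⊢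
              constructor <;> linarith [h7.1, h7.2, h8.1, h8.2]
            calc |θ (M + G + k + 1)| * |fR A ε K y (N + (i + (G + (k + 1)) * d)) -
                fR A ε K y (N' + (i + (G + (k + 1)) * d))| ≤ 1 * (2 * (B : ℤ)) :=
                  mul_le_mul h6 h9 (abs_nonneg _) (by norm_num)
              _ = 2 * (B : ℤ) := one_mul _
          have h6 : ((|aR A ε θ y (M + G + k + 1) - aR A ε θ y (M' + G + k + 1)| : ℤ) : ℝ) ≤
              ((2 * (B : ℤ) : ℤ) : ℝ) := by exact_mod_cast h5
          rw [Int.cast_abs] at h6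
          push_cast at h6
          exact h6) H le_rfl
      rw [add_zero, add_zero] at hbk
      have hb1 : bet lam (aR A ε θ y) (M + G + H) ≤ Rc := by
        have h1 := hR (i + (G + H) * d) d (hHd H le_rfl) hd0 hdQ hgD ((hdiv d _ hdQ).2 (hdvd _))
        rw [hshift, ← hM, ← add_assoc] at h1
        exact h1
      have hb2 : bet lam (aR A ε θ y) (M' + G + H) ≤ Rc := by
        have h1 := hR' (i + (G + H) * d) d (hHd H le_rfl) hd0 hdQ hgD ((hdiv' d _ hdQ).2 (hdvd _))
        rw [hshift, ← hM', ← add_assoc] at h1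
        exact h1
      have haa : aR A ε θ y M = aR A ε θ y M' := by
        by_contra hne
        have h1 : (1 : ℝ) ≤ |(aR A ε θ y M : ℝ) - (aR A ε θ y M' : ℝ)| := by
          have h2 : 1 ≤ |aR A ε θ y M - aR A ε θ y M'| := Int.one_le_abs (sub_ne_zero.2 hne)
          exact_mod_cast h2
        have hlam0 : (0 : ℝ) < lam := by linarith
        have hlG : 0 < lam ^ G := pow_pos hlam0 _
        have hlH : 0 < lam ^ H := pow_pos hlam0 _
        have h3 : |dyn.R (dyn.w (M + G + H)) - dyn.R (dyn.w (M' + G + H))| ≤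
            |dyn.c| * (2 * (ρ * lam ^ H)) := by
          refine (abs_sub _ _).trans ?_
          have h4 := (dyn.Rbd (M + G + H)).trans (mul_le_mul_of_nonneg_left (hb1.trans hRc) hc0.le)
          have h5 := (dyn.Rbd (M' + G + H)).trans (mul_le_mul_of_nonneg_left (hb2.trans hRc) hc0.le)
          linarith
        have h4 := hbk.trans h3
        rw [hG1, abs_mul, abs_mul, abs_of_pos hlG] at h4
        have h5 : |dyn.c| * lam ^ G ≤ lam ^ G * (|dyn.c| *
            |(aR A ε θ y M : ℝ) - (aR A ε θ y M' : ℝ)|) := by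
          calc |dyn.c| * lam ^ G = lam ^ G * (|dyn.c| * 1) := by ring
            _ ≤ _ := mul_le_mul_of_nonneg_left (mul_le_mul_of_nonneg_left h1 hc0.le) hlG.le
        have h6 : lam ^ H * (|dyn.c| * lam ^ G - 2 * (|dyn.c| * (2 * B))) ≤
            |dyn.c| * (2 * (ρ * lam ^ H)) := by
          have h7 : lam ^ H * (|dyn.c| * lam ^ G - 2 * (|dyn.c| * (2 * B))) ≤
              lam ^ H * (lam ^ G * (|dyn.c| * |(aR A ε θ y M : ℝ) - (aR A ε θ y M' : ℝ)|) -
                2 * (|dyn.c| * (2 * B))) :=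
            mul_le_mul_of_nonneg_left (by linarith) hlH.le
          have h8 : 0 ≤ 2 * (|dyn.c| * (2 * (B : ℝ))) := by positivity
          linarith
        have h7 : (lam ^ H * |dyn.c|) * (lam ^ G) ≤ (lam ^ H * |dyn.c|) * (4 * B + 2 * ρ) := by
          linarith
        have h8 := le_of_mul_le_mul_left h7 (mul_pos hlH hc0)
        linarith
      rw [haa, sub_self] at u4
      rcases mul_eq_zero.1 u4.symm with h1 | h1
      · exact absurd h1 (hθ.ne _)
      · linarith
  exact fun i h1 h2 => main _ i rfl h1 h2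

end Pool.Agent.Helper51.BR
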